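import Mathlib

/-! Counting the monomials of a given weighted degree. -/

set_option autoImplicit false

noncomputable section

namespace Pool.Agent.Lib.MP_ce9660_ag

theorem cnt_step {α : Type} [DecidableEq α] (f : α → ℕ) (k w : ℕ) (hw : 0 < w) (c P : ℝ)
    (hc : 0 ≤ c) (hP : 0 < P)
    (H : ∀ (m : ℕ) (A : Finset α), (∀ a ∈ A, f a ≤ m) → (A.card : ℝ) ≤ (m + c) ^ k / P)
    (m : ℕ) : ∀ B : Finset (α × ℕ), (∀ b ∈ B, f b.1 + w * b.2 ≤ m) →
      (B.card : ℝ) ≤ (m + (c + w)) ^ (k + 1) / (P * ((k + 1) * w)) := by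
  induction m using Nat.strong_induction_on with
  | _ m ih =>
    intro B hB
    have hw' : (0 : ℝ) < w := Nat.cast_pos.2 hw
    have hQ : (0 : ℝ) < P * ((k + 1) * w) := by positivity
    have hx : (0 : ℝ) ≤ m + c := by positivity
    have h0 : (((B.filter fun b => b.2 = 0).card : ℕ) : ℝ) ≤ (m + c) ^ k / P := by
      have e : ((B.filter fun b => b.2 = 0).image Prod.fst).card =
          (B.filter fun b => b.2 = 0).card := by
        refine Finset.card_image_of_injOn fun a ha b hb hab => ?_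
        have h1 := (Finset.mem_filter.1 (Finset.mem_coe.1 ha)).2
        have h2 := (Finset.mem_filter.1 (Finset.mem_coe.1 hb)).2
        exact Prod.ext hab (h1.trans h2.symm)
      rw [← e]
      refine H m _ fun a ha => ?_
      obtain ⟨b, hb, rfl⟩ := Finset.mem_image.1 ha
      exact le_trans (Nat.le_add_right _ _) (hB b (Finset.mem_filter.1 hb).1)
    have h1 : (((B.filter fun b => ¬ b.2 = 0).card : ℕ) : ℝ) ≤
        (m + c) ^ (k + 1) / (P * ((k + 1) * w)) := by
      have key : ∀ b ∈ B.filter fun b => ¬ b.2 = 0, f b.1 + w * (b.2 - 1) + w ≤ m := by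
        intro b hb
        obtain ⟨hb1, hb2⟩ := Finset.mem_filter.1 hb
        have h3 := hB b hb1
        obtain ⟨j, hj⟩ := Nat.exists_eq_succ_of_ne_zero hb2
        rw [hj] at h3 ⊢
        rw [Nat.succ_sub_one, add_assoc, ← Nat.mul_succ]
        exact h3
      rcases Nat.lt_or_ge m w with hm | hm
      · have e : (B.filter fun b => ¬ b.2 = 0) = ∅ := by
          refine Finset.eq_empty_of_forall_notMem fun b hb => ?_
          have := key b hb
          omega
        rw [e, Finset.card_empty, Nat.cast_zero]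
        positivity
      · have e : ((B.filter fun b => ¬ b.2 = 0).image fun b => (b.1, b.2 - 1)).card =
            (B.filter fun b => ¬ b.2 = 0).card := by
          refine Finset.card_image_of_injOn fun a ha b hb hab => ?_
          have h1 := (Finset.mem_filter.1 (Finset.mem_coe.1 ha)).2
          have h2 := (Finset.mem_filter.1 (Finset.mem_coe.1 hb)).2
          have h3 : a.1 = b.1 := (Prod.mk.inj hab).1
          have h4 : a.2 - 1 = b.2 - 1 := (Prod.mk.inj hab).2
          exact Prod.ext h3 (by omega)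
        have h5 := ih (m - w) (by omega) _ (fun b hb => by
          obtain ⟨a, ha, rfl⟩ := Finset.mem_image.1 hb
          have := key a ha
          show f a.1 + w * (a.2 - 1) ≤ m - w
          omega : ∀ b ∈ (B.filter fun b => ¬ b.2 = 0).image fun b => (b.1, b.2 - 1),
            f b.1 + w * b.2 ≤ m - w)
        rw [e, Nat.cast_sub hm, show (m : ℝ) - w + (c + w) = m + c by ring] at h5
        exact h5
    have h2 := pow_add_mul_le_add_pow (a := (m : ℝ) + c) (b := (w : ℝ)) hx (by positivity) (k + 1)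
    rw [← Finset.card_filter_add_card_filter_not (s := B) fun b => b.2 = 0, Nat.cast_add]
    refine (add_le_add h0 h1).trans ?_
    rw [← add_assoc]
    refine le_trans (le_of_eq ?_) (div_le_div_of_nonneg_right h2 hQ.le)
    rw [Nat.add_sub_cancel]
    push_cast
    field_simp
    ring

theorem cnt_four (m : ℕ) (B : Finset ((((Unit × ℕ) × ℕ) × ℕ) × ℕ))
    (hB : ∀ b ∈ B, 0 + 15 * b.1.1.1.2 + 171 * b.1.1.2 + 40 * b.1.2 + 56 * b.2 ≤ m) :
    (B.card : ℝ) ≤ (m + 282) ^ 4 / (24 * 5745600) := by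
  have h0 : ∀ (m : ℕ) (A : Finset Unit), (∀ a ∈ A, (fun _ : Unit => 0) a ≤ m) →
      (A.card : ℝ) ≤ (m + 0) ^ 0 / 1 := fun m A _ => by
    have := Finset.card_le_univ A
    rw [Fintype.card_unit] at this
    rw [pow_zero, div_one]
    exact_mod_cast this
  have h1 := cnt_step _ 0 15 (by norm_num) 0 1 le_rfl one_pos h0
  have h2 := cnt_step (fun b : Unit × ℕ => 0 + 15 * b.2) 1 171 (by norm_num) _ _
    (by positivity) (by positivity) h1
  have h3 := cnt_step (fun b : (Unit × ℕ) × ℕ => 0 + 15 * b.1.2 + 171 * b.2) 2 40 (by norm_num)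
    _ _ (by positivity) (by positivity) h2
  have h4 := cnt_step
    (fun b : ((Unit × ℕ) × ℕ) × ℕ => 0 + 15 * b.1.1.2 + 171 * b.1.2 + 40 * b.2) 3 56
    (by norm_num) _ _ (by positivity) (by positivity) h3 m B hB
  refine h4.trans (le_of_eq ?_)
  push_cast
  norm_num

theorem cnt_mon {n m : ℕ} (hn : n ≤ m) (A : Finset (Fin 5 →₀ ℕ))
    (hA : ∀ d ∈ A, 9 * d 0 + 15 * d 1 + 19 * d 2 + 40 * d 3 + 56 * d 4 = n) :
    (A.card : ℝ) ≤ (m + 282) ^ 4 / (24 * 5745600) := by
  have e : (A.image fun d => (((((), d 1), d 2 / 9), d 3), d 4)).card = A.card := by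
    refine Finset.card_image_of_injOn fun a ha b hb hab => ?_
    have h1 := hA a (Finset.mem_coe.1 ha)
    have h2 := hA b (Finset.mem_coe.1 hb)
    simp only [Prod.mk.injEq, true_and] at hab
    obtain ⟨⟨⟨e1, e2⟩, e3⟩, e4⟩ := hab
    have e5 : a 2 = b 2 := by omega
    have e0 : a 0 = b 0 := by omega
    ext i
    fin_cases i
    exacts [e0, e1, e5, e3, e4]
  rw [← e]
  refine cnt_four m _ fun b hb => ?_
  obtain ⟨d, hd, rfl⟩ := Finset.mem_image.1 hb
  have h1 := hA d hd
  show 0 + 15 * d 1 + 171 * (d 2 / 9) + 40 * d 3 + 56 * d 4 ≤ m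
  omega

end Pool.Agent.Lib.MP_ce9660_ag
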