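import Pool.Agent.Lib.MP_ce9660_ag.ConeA

/-! The coordinate derivations and the Euler derivation. -/

set_option autoImplicit false

noncomputable section

namespace Pool.Agent.Lib.MP_ce9660_ag

open MvPolynomial

/-- The coordinate derivations. -/
def dd (i : Fin 5) : Derivation ℂ L L := (exists_dd i).choose

theorem dd_poly (i : Fin 5) (r : R) : dd i (algebraMap R L r) = algebraMap R L (pderiv i r) :=
  (exists_dd i).choose_spec r

theorem dd_x (i j : Fin 5) : dd i (x j) = if i = j then 1 else 0 := by
  rw [x, dd_poly, pderiv_X]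
  by_cases h : i = j
  · subst h; simp
  · rw [if_neg h, Pi.single_eq_of_ne' h, map_zero]

theorem dd_z (i : Fin 5) : 2 * z * dd i z = -algebraMap R L (pderiv i g) := by
  have h := congrArg (dd i) z_sq
  rw [map_neg, dd_poly, pow_two, Derivation.leibniz] at h
  rw [← h, smul_eq_mul]
  ring

/-- The Euler derivation. -/
def EL : Derivation ℂ L L := ∑ i, ((wt i : L) * x i) • dd i

theorem EL_apply (y : L) : EL y = ∑ i, (wt i : L) * x i * dd i y := by
  have h : ∀ s : Finset (Fin 5), (∑ i ∈ s, ((wt i : L) * x i) • dd i : Derivation ℂ L L) y =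
      ∑ i ∈ s, (wt i : L) * x i * dd i y := by
    intro s
    induction s using Finset.induction_on with
    | empty => simp
    | insert a s ha ih =>
      rw [Finset.sum_insert ha, Finset.sum_insert ha, Derivation.add_apply, ih,
        Derivation.smul_apply, smul_eq_mul]
  exact h _

theorem EL_x (j : Fin 5) : EL (x j) = wt j * x j := by
  rw [EL_apply, Finset.sum_eq_single j]
  · rw [dd_x, if_pos rfl, mul_one]
  · intro i _ h; rw [dd_x, if_neg h, mul_zero]
  · simp

theorem cone_EL_poly (r : R) :
    EL (algebraMap R L r) = algebraMap R L (∑ i, (wt i : R) * (X i * pderiv i r)) := by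
  rw [EL_apply, map_sum]
  refine Finset.sum_congr rfl fun i _ => ?_
  rw [dd_poly, map_mul, map_mul, map_natCast, x, mul_assoc]

theorem cone_nat_ne (n : ℕ) (hn : n ≠ 0) : (n : L) ≠ 0 := by
  rw [← map_natCast (algebraMap ℂ L)]
  exact (map_ne_zero _).2 (Nat.cast_ne_zero.2 hn)

theorem EL_z : EL z = 140 * z := by
  have h := congrArg EL z_sq
  rw [map_neg, cone_EL_poly, euler_g, map_mul, map_ofNat, pow_two, Derivation.leibniz,
    smul_eq_mul] at h
  have h2 : (2 : L) * z ≠ 0 := mul_ne_zero (by exact_mod_cast cone_nat_ne 2 two_ne_zero) z_ne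
  apply mul_left_cancel₀ h2
  linear_combination h - 280 * z_sq

theorem im_eq_zero {r0 r1 : R} (h : EL (algebraMap R L r0 + algebraMap R L r1 * z) =
    190 * (algebraMap R L r0 + algebraMap R L r1 * z)) : r1 = 0 := by
  rw [map_add, Derivation.leibniz, EL_z, cone_EL_poly, cone_EL_poly, smul_eq_mul,
    smul_eq_mul] at h
  apply euler_fifty
  generalize ∑ i, (wt i : R) * (X i * pderiv i r0) = s0 at h
  generalize ∑ i, (wt i : R) * (X i * pderiv i r1) = s1 at h ⊢
  have h1 : algebraMap R L (s1 - 50 * r1) * z = algebraMap R L (190 * r0 - s0) := by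
    simp only [map_sub, map_mul, map_ofNat]
    linear_combination h
  have h2 := congrArg QuadraticAlgebra.im h1
  rw [IsScalarTower.algebraMap_apply R L0 L, IsScalarTower.algebraMap_apply R L0 L] at h2
  simp only [z, QuadraticAlgebra.im_mul, QuadraticAlgebra.algebraMap_re,
    QuadraticAlgebra.algebraMap_im, QuadraticAlgebra.omega_re, QuadraticAlgebra.omega_im,
    mul_one, mul_zero, add_zero] at h2
  exact sub_eq_zero.1 ((IsFractionRing.to_map_eq_zero_iff (K := L0)).1 h2)

end Pool.Agent.Lib.MP_ce9660_ag
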