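import Pool.Agent.Lib.MP_ce9660_ag.Poly

/-! The function field of the affine cone and its partial derivatives. -/

set_option autoImplicit false

noncomputable section

namespace Pool.Agent.Lib.MP_ce9660_ag

open MvPolynomial

instance g_fact : Fact (∀ r : L0, r ^ 2 ≠ -algebraMap R L0 g + 0 * r) := ⟨g_not_sq⟩

/-- The function field of the cone. -/
abbrev L : Type := QuadraticAlgebra L0 (-algebraMap R L0 g) 0

/-- The coordinates of the base. -/
def x (i : Fin 5) : L := algebraMap R L (X i)

/-- The last coordinate. -/
def z : L := QuadraticAlgebra.omega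

theorem coneA_map (r : R) : algebraMap R L r = algebraMap L0 L (algebraMap R L0 r) := rfl

theorem RL_inj : Function.Injective (algebraMap R L) := fun a b h =>
  IsFractionRing.injective R L0 ((algebraMap L0 L).injective (by
    rw [← coneA_map, ← coneA_map, h]))

theorem x_ne (i : Fin 5) : x i ≠ 0 := fun h =>
  X_ne_zero i (RL_inj (h.trans (map_zero _).symm))

theorem z_sq : z ^ 2 = -algebraMap R L g := by
  rw [sq, z, QuadraticAlgebra.omega_mul_omega_eq_mk, coneA_map]
  ext <;> simp

theorem z_ne : z ≠ 0 := fun h => by
  have h1 := congrArg QuadraticAlgebra.im h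
  simp [z] at h1

theorem L_eq (y : L) : y = algebraMap L0 L y.re + algebraMap L0 L y.im * z := by
  ext <;> simp [z]

theorem coneA_frac {A F : Type} [CommRing A] [IsDomain A] [Field F] [Algebra A F]
    [IsFractionRing A F] [Algebra ℂ A] [Algebra ℂ F] [IsScalarTower ℂ A F]
    (d : Derivation ℂ A A) :
    ∃ e : Derivation ℂ F F, ∀ r : A, e (algebraMap A F r) = algebraMap A F (d r) := by
  let φ : A →+* TrivSqZeroExt F F :=
    { toFun := fun r => TrivSqZeroExt.inl (algebraMap A F r) +
        TrivSqZeroExt.inr (algebraMap A F (d r))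
      map_one' := by ext <;> simp
      map_mul' := fun a b => by
        ext
        · simp
        · simp only [TrivSqZeroExt.snd_add, TrivSqZeroExt.snd_mul, TrivSqZeroExt.snd_inl,
            TrivSqZeroExt.snd_inr, TrivSqZeroExt.fst_add, TrivSqZeroExt.fst_inl,
            TrivSqZeroExt.fst_inr, Derivation.leibniz, smul_eq_mul, map_add, map_mul, zero_add,
            add_zero, op_smul_eq_mul]
          ring
      map_zero' := by ext <;> simp
      map_add' := fun a b => by ext <;> simp [Algebra.smul_def] }
  have h1 : ∀ r, (φ r).fst = algebraMap A F r := fun r => by simp [φ]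
  have h2 : ∀ r, (φ r).snd = algebraMap A F (d r) := fun r => by
    show 0 + _ = _
    exact zero_add _
  have hu : ∀ y : nonZeroDivisors A, IsUnit (φ y) := fun y => by
    rw [TrivSqZeroExt.isUnit_iff_isUnit_fst, h1]
    exact IsLocalization.map_units F y
  let ψ : F →+* TrivSqZeroExt F F := IsLocalization.lift hu
  have h3 : ∀ r, ψ (algebraMap A F r) = φ r := fun r => IsLocalization.lift_eq hu r
  have h4 : ∀ y, (ψ y).fst = y := fun y => by
    have h5 : (TrivSqZeroExt.fstHom F F F).toRingHom.comp ψ = RingHom.id F := by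
      refine IsLocalization.ringHom_ext (nonZeroDivisors A) (RingHom.ext fun r => ?_)
      show (ψ (algebraMap A F r)).fst = algebraMap A F r
      rw [h3, h1]
    exact RingHom.congr_fun h5 y
  have h6 : ∀ y w, (ψ (y * w)).snd = y * (ψ w).snd + w * (ψ y).snd := fun y w => by
    rw [map_mul, TrivSqZeroExt.snd_mul, h4, h4]
    simp [mul_comm]
  let l : F →ₗ[ℂ] F :=
    { toFun := fun y => (ψ y).snd
      map_add' := fun y w => by rw [map_add, TrivSqZeroExt.snd_add]
      map_smul' := fun c y => by
        rw [Algebra.smul_def, h6, IsScalarTower.algebraMap_apply ℂ A F, h3, h2,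
          Derivation.map_algebraMap, map_zero, mul_zero, add_zero,
          ← IsScalarTower.algebraMap_apply, RingHom.id_apply, Algebra.smul_def] }
  refine ⟨Derivation.mk' l fun y w => h6 y w, fun r => ?_⟩
  show (ψ (algebraMap A F r)).snd = _
  rw [h3, h2]

theorem coneA_quad {F : Type} [Field F] [CharZero F] [Algebra ℂ F] {a : F} (ha : a ≠ 0)
    (d : Derivation ℂ F F) :
    ∃ e : Derivation ℂ (QuadraticAlgebra F a 0) (QuadraticAlgebra F a 0), ∀ c : F,
      e (algebraMap F _ c) = algebraMap F _ (d c) := by
  let l : QuadraticAlgebra F a 0 →ₗ[ℂ] QuadraticAlgebra F a 0 :=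
    { toFun := fun y => ⟨d y.re, d y.im + y.im * (d a / (2 * a))⟩
      map_add' := fun y w => by
        ext
        · simp
        · simp
          ring
      map_smul' := fun c y => by
        ext
        · simp
        · simp }
  refine ⟨Derivation.mk' l fun y w => ?_, fun c => ?_⟩
  · ext
    · simp [l, Derivation.leibniz]
      field_simp
      ring
    · simp [l, Derivation.leibniz]
      ring
  · show l _ = _
    ext <;> simp [l]

theorem exists_dd (i : Fin 5) : ∃ d : Derivation ℂ L L,
    ∀ r : R, d (algebraMap R L r) = algebraMap R L (pderiv i r) := by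
  obtain ⟨d₀, h₀⟩ := coneA_frac (F := L0) (pderiv i : Derivation ℂ R R)
  have ha : -algebraMap R L0 g ≠ 0 := fun h => g_not_sq 0 (by rw [h]; ring)
  obtain ⟨d, h⟩ := coneA_quad ha d₀
  exact ⟨d, fun r => by rw [coneA_map, coneA_map, h, h₀]⟩

end Pool.Agent.Lib.MP_ce9660_ag
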