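import Mathlib

/-! The local ring of a factorial domain at a prime element. -/

set_option autoImplicit false

noncomputable section

namespace Pool.Agent.Lib.MP_ce9660_ag

variable {A : Type} (F : Type) [CommRing A] [Field F] [Algebra A F]

/-- Fractions whose denominator is prime to `p`. -/
def locAt {p : A} (hp : Prime p) : Subalgebra A F where
  carrier := {c | ∃ s r : A, ¬ p ∣ s ∧ c * algebraMap A F s = algebraMap A F r}
  mul_mem' := fun ⟨s, r, h, e⟩ ⟨s', r', h', e'⟩ => ⟨s * s', r * r',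
    fun d => (hp.dvd_or_dvd d).elim h h', by rw [map_mul, map_mul, ← e, ← e']; ring⟩
  add_mem' := fun ⟨s, r, h, e⟩ ⟨s', r', h', e'⟩ => ⟨s * s', r * s' + r' * s,
    fun d => (hp.dvd_or_dvd d).elim h h', by
      rw [map_add, map_mul, map_mul, map_mul, ← e, ← e']; ring⟩
  algebraMap_mem' := fun r => ⟨1, r, hp.not_dvd_one, by rw [map_one, mul_one]⟩

variable [IsDomain A] [UniqueFactorizationMonoid A] [IsFractionRing A F]

omit [IsDomain A] [UniqueFactorizationMonoid A] in
theorem loc_unit {p s : A} (hp : Prime p) (hs : ¬ p ∣ s) :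
    IsUnit (algebraMap A (locAt F hp) s) := by
  have h0 : algebraMap A F s ≠ 0 :=
    (map_ne_zero_iff _ (IsFractionRing.injective A F)).2 fun h => hs (h ▸ dvd_zero p)
  exact IsUnit.of_mul_eq_one
    ⟨(algebraMap A F s)⁻¹, s, 1, hs, by rw [inv_mul_cancel₀ h0, map_one]⟩
    (Subtype.ext (mul_inv_cancel₀ h0))

omit [IsDomain A] [UniqueFactorizationMonoid A] [IsFractionRing A F] in
theorem loc_rep {p : A} (hp : Prime p) (x : locAt F hp) :
    ∃ s r : A, ¬ p ∣ s ∧ x * algebraMap A _ s = algebraMap A _ r := by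
  obtain ⟨s, r, h, e⟩ := x.2
  exact ⟨s, r, h, Subtype.ext e⟩

omit [IsDomain A] [UniqueFactorizationMonoid A] in
theorem loc_inj {p : A} (hp : Prime p) : Function.Injective (algebraMap A (locAt F hp)) :=
  fun _ _ h => IsFractionRing.injective A F (congrArg Subtype.val h)

omit [UniqueFactorizationMonoid A] in
theorem loc_irr {p : A} (hp : Prime p) : Irreducible (algebraMap A (locAt F hp) p) := by
  have key : ∀ a b : locAt F hp, ∀ s r s' r' : A, ¬ p ∣ s → ¬ p ∣ s' →
      b * algebraMap A _ s' = algebraMap A _ r' → p * (s * s') = r * r' → p ∣ r → IsUnit b := by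
    rintro a b s _ s' r' h h' e' e ⟨r, rfl⟩
    rw [mul_assoc] at e
    have h1 : ¬ p ∣ r' := fun d =>
      (hp.dvd_or_dvd (mul_left_cancel₀ hp.ne_zero e ▸ d.mul_left r)).elim h h'
    exact isUnit_of_mul_isUnit_left (e' ▸ loc_unit F hp h1)
  refine ⟨fun h => ?_, fun a b hab => ?_⟩
  · obtain ⟨y, hy⟩ := h.exists_right_inv
    obtain ⟨s, r, h1, e⟩ := loc_rep F hp y
    refine h1 ⟨r, loc_inj F hp ?_⟩
    rw [map_mul, ← e, ← mul_assoc, hy, one_mul]
  · obtain ⟨s, r, h, e⟩ := loc_rep F hp a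
    obtain ⟨s', r', h', e'⟩ := loc_rep F hp b
    have e1 : p * (s * s') = r * r' := loc_inj F hp (by
      rw [map_mul, map_mul, map_mul, ← e, ← e', hab]; ring)
    rcases hp.dvd_or_dvd ⟨_, e1.symm⟩ with d | d
    · exact Or.inr (key a b s r s' r' h h' e' e1 d)
    · exact Or.inl (key b a s' r' s r h' h e (by rw [mul_comm s', e1, mul_comm]) d)

theorem locAt_dvr {p : A} (hp : Prime p) : IsDiscreteValuationRing (locAt F hp) := by
  refine IsDiscreteValuationRing.ofHasUnitMulPowIrreducibleFactorization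
    ⟨_, loc_irr F hp, fun {x} hx => ?_⟩
  obtain ⟨s, r, h, e⟩ := loc_rep F hp x
  have hr : r ≠ 0 := fun h0 => by
    rw [h0, map_zero] at e
    exact mul_ne_zero hx (loc_unit F hp h).ne_zero e
  obtain ⟨n, a, h1, rfl⟩ := WfDvdMonoid.max_power_factor hr hp.irreducible
  rw [map_mul, map_pow] at e
  exact ⟨n, ((associated_mul_unit_right _ _ (loc_unit F hp h1)).trans (.of_eq e.symm)).trans
    (associated_mul_unit_left _ _ (loc_unit F hp h))⟩

omit [IsDomain A] [UniqueFactorizationMonoid A] in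
theorem locAt_frac {p : A} (hp : Prime p) : IsFractionRing (locAt F hp) F := by
  refine IsFractionRing.of_field _ _ fun z => ?_
  obtain ⟨x, y, -, rfl⟩ := IsFractionRing.div_surjective (A := A) z
  exact ⟨algebraMap A _ x, algebraMap A _ y, rfl⟩

theorem loc_dvd {p : A} (hp : Prime p) (c : F) (h : p ∣ IsFractionRing.den A c) :
    ¬ p ∣ IsFractionRing.num A c := fun d =>
  hp.not_isUnit (IsFractionRing.num_den_reduced A c d h)

theorem loc_mul (c : F) :
    c * algebraMap A F (IsFractionRing.den A c) = algebraMap A F (IsFractionRing.num A c) := by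
  have h := IsLocalization.mk'_spec F (IsFractionRing.num A c) (IsFractionRing.den A c)
  rwa [IsFractionRing.mk'_num_den] at h

theorem mem_range_of_locAt {c : F} (h : ∀ (p : A) (hp : Prime p), c ∈ locAt F hp) :
    ∃ r : A, algebraMap A F r = c := by
  refine IsFractionRing.isInteger_of_isUnit_den (A := A) ?_
  by_contra hu
  obtain ⟨p, hp, d⟩ := WfDvdMonoid.exists_irreducible_factor hu
    (nonZeroDivisors.coe_ne_zero (IsFractionRing.den A c))
  obtain ⟨s, r, h1, e⟩ := h p hp.prime
  have e1 : IsFractionRing.num A c * s = r * IsFractionRing.den A c :=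
    IsFractionRing.injective A F (by rw [map_mul, map_mul, ← e, ← loc_mul]; ring)
  exact (hp.prime.dvd_or_dvd (e1 ▸ d.mul_left r)).elim (loc_dvd F hp.prime c d) h1

theorem mem_locAt_of_sq {p g : A} (hp : Prime p) (hg : Squarefree g) {c : F}
    (h : c ^ 2 * algebraMap A F g ∈ locAt F hp) : c ∈ locAt F hp := by
  refine ⟨_, _, fun d => ?_, loc_mul F c⟩
  obtain ⟨s, r, h1, e⟩ := h
  have e1 : g * (IsFractionRing.num A c ^ 2 * s) = r * IsFractionRing.den A c ^ 2 :=
    IsFractionRing.injective A F (by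
      simp only [map_mul, map_pow]
      rw [← e, ← loc_mul]; ring)
  have h2 : p ^ 2 ∣ g := hp.pow_dvd_of_dvd_mul_right 2
    (fun d' => (hp.dvd_or_dvd d').elim (fun d2 => loc_dvd F hp c d (hp.dvd_of_dvd_pow d2)) h1)
    (e1 ▸ (pow_dvd_pow_of_dvd d 2).mul_left r)
  exact hp.not_isUnit (hg p (by rwa [← sq]))

end Pool.Agent.Lib.MP_ce9660_ag
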