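import Pool.Agent.Lib.MP_ce9660_ag.ConeA
import Pool.Agent.Lib.MP_ce9660_ag.Loc

/-! The valuations of the cone above a prime element. -/

set_option autoImplicit false

noncomputable section

namespace Pool.Agent.Lib.MP_ce9660_ag

/-- Both components have a denominator prime to `p`. -/
def InS {p : R} (hp : Prime p) (y : L) : Prop := y.re ∈ locAt L0 hp ∧ y.im ∈ locAt L0 hp

/-- The ring of `v` is a ring of fractions of the ring described by `InS`. -/
def Over {p : R} (hp : Prime p) (v : Valuation L (WithZero (Multiplicative ℤ))) : Prop :=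
  (∀ y, InS hp y → v y ≤ 1) ∧
    ∀ f, v f ≤ 1 → ∃ b s, InS hp b ∧ InS hp s ∧ v s = 1 ∧ f * s = b

theorem ded_half {p : R} (hp : Prime p) {c : L0} (h : 2 * c ∈ locAt L0 hp) : c ∈ locAt L0 hp := by
  have e : (MvPolynomial.C (1 / 2 : ℂ) * 2 : R) = 1 := by
    rw [← map_ofNat (MvPolynomial.C : ℂ →+* R) 2, ← map_mul]
    norm_num
  have e' := congrArg (algebraMap R L0) e
  rw [map_mul, map_ofNat, map_one] at e'
  have := (locAt L0 hp).mul_mem ((locAt L0 hp).algebraMap_mem (MvPolynomial.C (1 / 2 : ℂ))) h
  rwa [← mul_assoc, e', one_mul] at this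

theorem ded_mem {p : R} (hp : Prime p) {c : L0}
    (h : IsIntegral (locAt L0 hp) (algebraMap L0 L c)) : c ∈ locAt L0 hp := by
  have := locAt_dvr L0 hp
  have := locAt_frac L0 hp
  obtain ⟨a, rfl⟩ := IsIntegrallyClosed.isIntegral_iff.1
    ((isIntegral_algebraMap_iff (algebraMap L0 L).injective).1 h)
  exact a.2

theorem ded_int {p : R} (hp : Prime p) {c : L0} (h : c ∈ locAt L0 hp) :
    IsIntegral (locAt L0 hp) (algebraMap L0 L c) :=
  (isIntegral_algebraMap (R := locAt L0 hp) (A := L0) (x := ⟨c, h⟩)).algebraMap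

/-- The conjugation. -/
def dedConj {p : R} (hp : Prime p) : L →ₐ[locAt L0 hp] L :=
  { starRingEnd L with
    commutes' := fun a => by
      change star (algebraMap L0 L (a : L0)) = algebraMap L0 L (a : L0)
      ext <;> simp }

theorem inS_iff {p : R} (hp : Prime p) (y : L) : InS hp y ↔ IsIntegral (locAt L0 hp) y := by
  refine ⟨fun h => ?_, fun h => ?_⟩
  · have hz : IsIntegral (locAt L0 hp) z := by
      refine IsIntegral.of_pow two_pos ?_
      rw [z_sq, IsScalarTower.algebraMap_apply R L0 L]
      exact (ded_int hp ((locAt L0 hp).algebraMap_mem g)).neg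
    rw [L_eq y]
    exact (ded_int hp h.1).add ((ded_int hp h.2).mul hz)
  · have hs : IsIntegral (locAt L0 hp) (star y) := h.map (dedConj hp)
    have e1 : y + star y = algebraMap L0 L (2 * y.re) := by
      ext <;> simp [two_mul]
    have e2 : -((y - star y) * (y - star y)) =
        algebraMap L0 L (2 * (2 * (y.im ^ 2 * algebraMap R L0 g))) := by
      ext
      · simp only [QuadraticAlgebra.re_neg, QuadraticAlgebra.re_mul, QuadraticAlgebra.re_sub,
          QuadraticAlgebra.im_sub, QuadraticAlgebra.re_star, QuadraticAlgebra.im_star,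
          QuadraticAlgebra.algebraMap_re]
        ring
      · simp only [QuadraticAlgebra.im_neg, QuadraticAlgebra.im_mul, QuadraticAlgebra.re_sub,
          QuadraticAlgebra.im_sub, QuadraticAlgebra.re_star, QuadraticAlgebra.im_star,
          QuadraticAlgebra.algebraMap_im]
        ring
    have h1 := h.add hs
    have h2 := ((h.sub hs).mul (h.sub hs)).neg
    rw [e1] at h1
    rw [e2] at h2
    exact ⟨ded_half hp (ded_mem hp h1),
      mem_locAt_of_sq L0 hp g_squarefree (ded_half hp (ded_half hp (ded_mem hp h2)))⟩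

theorem inS_of_over {p : R} (hp : Prime p) {y : L} (h : ∀ v, Over hp v → v y ≤ 1) :
    InS hp y := by
  have := locAt_dvr L0 hp
  have := locAt_frac L0 hp
  have := integralClosure.isDedekindDomain (locAt L0 hp) L0 L
  have : IsFractionRing (integralClosure (locAt L0 hp) L) L :=
    integralClosure.isFractionRing_of_finite_extension L0 L
  obtain ⟨b, rfl⟩ := IsDedekindDomain.HeightOneSpectrum.mem_integers_of_valuation_le_one
    (R := integralClosure (locAt L0 hp) L) L y fun P => h _ ⟨fun w hw =>
      P.valuation_le_one (K := L) ⟨w, (inS_iff hp w).1 hw⟩, fun f hf => by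
        obtain ⟨n, d, e⟩ := P.exists_primeCompl_mul_eq_of_integer f hf
        exact ⟨n.1, d.1.1, (inS_iff hp _).2 n.2, (inS_iff hp _).2 d.1.2,
          (P.valuation_eq_one_iff_notMem (K := L)).2 d.2, e⟩⟩
  exact (inS_iff hp _).2 b.2

end Pool.Agent.Lib.MP_ce9660_ag
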