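import Mathlib

/-! Pluricanonical forms of a function field. -/

set_option autoImplicit false

noncomputable section

namespace Pool.Agent.Lib.MP_ce9660_ag

variable {K : Type} [Field K] [Algebra ℂ K] {n : ℕ}

/-- The Jacobian determinant: the coefficient of `d f 0 ∧ ⋯ ∧ d f (n - 1)`. -/
def jac (D : Fin n → Derivation ℂ K K) (f : Fin n → K) : K :=
  (Matrix.of fun a b => D a (f b)).det

/-- Coefficients of the `m`-canonical forms that are regular at the valuation `v`. -/
def Reg (D : Fin n → Derivation ℂ K K) (m : ℕ) (v : Valuation K (WithZero (Multiplicative ℤ))) :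
    Submodule v.integer K :=
  Submodule.span v.integer
    {h | ∃ f : Fin m → Fin n → K, (∀ i j, v (f i j) ≤ 1) ∧ h = ∏ i, jac D (f i)}

/-- Coefficients of the `m`-canonical forms that are regular at all discrete valuations. -/
def Pluri (D : Fin n → Derivation ℂ K K) (m : ℕ) : Set K :=
  {h | ∀ v : Valuation K (WithZero (Multiplicative ℤ)), (∀ c : ℂ, v (algebraMap ℂ K c) ≤ 1) →
    h ∈ Reg D m v}

/-- The `m`-canonical map is birational: the ratios of the forms generate the field. -/
def Birat (D : Fin n → Derivation ℂ K K) (m : ℕ) : Prop :=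
  IntermediateField.adjoin ℂ {r | ∃ h ∈ Pluri D m, ∃ h' ∈ Pluri D m, r = h / h'} = ⊤

end Pool.Agent.Lib.MP_ce9660_ag
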