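import Pool.Agent.Lib.MP_ce9660_ag.Defs

/-! Two determinant identities. -/

set_option autoImplicit false

noncomputable section

namespace Pool.Agent.Lib.MP_ce9660_ag

theorem det_aux {A : Type} [CommRing A] {n : ℕ} (u w : Fin n → A) (s : Finset (Fin n)) :
    ∀ M : Matrix (Fin n) (Fin n) A,
      (Matrix.of fun a b => M a b + if b ∈ s then u a * w b else 0).det =
        M.det + ∑ b ∈ s, w b * (M.updateCol b u).det := by
  induction s using Finset.induction_on with
  | empty =>
    intro M
    simp only [Finset.notMem_empty, if_false, add_zero, Finset.sum_empty]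
    rfl
  | insert c s hc ih =>
    intro M
    have e1 : (Matrix.of fun a b => M a b + if b ∈ insert c s then u a * w b else 0) =
        (Matrix.of fun a b => M a b + if b ∈ s then u a * w b else 0).updateCol c
          ((fun a => (Matrix.of fun a b => M a b + if b ∈ s then u a * w b else 0) a c) +
            w c • u) := by
      ext a b
      by_cases h : b = c
      · subst h
        simp [hc, mul_comm]
      · simp [h]
    have e2 : (Matrix.of fun a b => M a b + if b ∈ s then u a * w b else 0).updateCol c u =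
        Matrix.of fun a b => M.updateCol c u a b + if b ∈ s then u a * w b else 0 := by
      ext a b
      by_cases h : b = c
      · subst h
        simp [hc]
      · simp [h]
    have e3 : ∑ b ∈ s, w b * ((M.updateCol c u).updateCol b u).det = 0 :=
      Finset.sum_eq_zero fun b hb => by
        have h : c ≠ b := fun h => hc (h ▸ hb)
        rw [Matrix.det_zero_of_column_eq h fun a => by simp [h], mul_zero]
    rw [e1, Matrix.det_updateCol_add, Matrix.updateCol_eq_self, Matrix.det_updateCol_smul, e2,
      ih, ih, e3, Finset.sum_insert hc]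
    ring

/-- A rank one perturbation. -/
theorem det_rank_one {A : Type} [CommRing A] {n : ℕ} (M : Matrix (Fin n) (Fin n) A)
    (u w : Fin n → A) :
    (Matrix.of fun a b => M a b + u a * w b).det = M.det + ∑ b, w b * (M.updateCol b u).det := by
  simpa only [Finset.mem_univ, if_true] using det_aux u w Finset.univ M

variable {K : Type} [Field K] [Algebra ℂ K]

/-- The logarithmic Jacobian of the four ratios `y (σ (b + 2)) / y (σ 0)`. -/
def logJ (D : Fin 4 → Derivation ℂ K K) (y : Fin 6 → K) (σ : Equiv.Perm (Fin 6)) : K :=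
  jac D (fun b => y (σ b.succ.succ) / y (σ 0)) / ∏ b : Fin 4, y (σ b.succ.succ) / y (σ 0)

/-- The matrix with rows `r`, the row of ones and the rows of `L`. -/
def detB {F : Type} [Field F] (r : Fin 6 → F) (L : Fin 4 → Fin 6 → F) :
    Matrix (Fin 6) (Fin 6) F := Matrix.of ![r, fun _ => 1, L 0, L 1, L 2, L 3]

theorem det_border {F : Type} [Field F] (L : Fin 4 → Fin 6 → F) :
    (detB (Pi.single 1 1) L).det =
      -(Matrix.of fun a b : Fin 4 => L a b.succ.succ - L a 0).det := by
  have e : (detB (Pi.single 1 1) L).det = (Matrix.of ![Pi.single 1 1, ![1, 1, 0, 0, 0, 0],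
      fun k => L 0 k - ![0, 0, 1, 1, 1, 1] k * L 0 0,
      fun k => L 1 k - ![0, 0, 1, 1, 1, 1] k * L 1 0,
      fun k => L 2 k - ![0, 0, 1, 1, 1, 1] k * L 2 0,
      fun k => L 3 k - ![0, 0, 1, 1, 1, 1] k * L 3 0] : Matrix (Fin 6) (Fin 6) F).det := by
    rw [← Matrix.det_transpose, ← Matrix.det_transpose (Matrix.of _)]
    refine Matrix.det_eq_of_forall_row_eq_smul_add_const ![0, 0, 1, 1, 1, 1] 0 rfl fun i j => ?_
    fin_cases i <;> fin_cases j <;> simp [detB]
  rw [e, Matrix.det_succ_row_zero, Finset.sum_eq_single 1 (fun b _ hb => by simp [hb])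
    (fun h => absurd (Finset.mem_univ _) h), Matrix.det_succ_row_zero,
    Finset.sum_eq_single 0 (fun b _ hb => by fin_cases b <;> simp [Fin.succAbove] at hb ⊢)
      fun h => absurd (Finset.mem_univ _) h]
  simp
  refine congrArg Matrix.det ?_
  ext a b
  fin_cases a <;> fin_cases b <;> simp [Fin.succAbove]

theorem det_cof {F : Type} [Field F] (L : Fin 4 → Fin 6 → F) {y : Fin 6 → F} (hy : y ≠ 0)
    (h0 : ∑ k, y k = 0) (hL : ∀ a, ∑ k, L a k * y k = 0) (p q : Fin 6) :
    (detB (Pi.single p 1) L).det * y q = (detB (Pi.single q 1) L).det * y p := by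
  have e : ∀ r, detB r L = (detB 0 L).updateRow 0 r := fun r => by
    ext i j
    fin_cases i <;> simp [detB]
  have h : (detB (y q • Pi.single p 1 + -y p • Pi.single q 1) L).det = 0 := by
    refine Matrix.exists_mulVec_eq_zero_iff.1 ⟨y, hy, funext fun i => ?_⟩
    fin_cases i
    · show (y q • Pi.single p 1 + -y p • Pi.single q 1) ⬝ᵥ y = 0
      rw [add_dotProduct, smul_dotProduct, smul_dotProduct, single_dotProduct, single_dotProduct]
      simp only [smul_eq_mul]
      ring
    · show ∑ k, 1 * y k = 0
      simpa only [one_mul] using h0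
    exacts [hL 0, hL 1, hL 2, hL 3]
  rw [e, Matrix.det_updateRow_add, Matrix.det_updateRow_smul, Matrix.det_updateRow_smul, ← e,
    ← e] at h
  linear_combination h

theorem det_logJ (D : Fin 4 → Derivation ℂ K K) {y : Fin 6 → K} (hy : ∀ k, y k ≠ 0)
    (σ : Equiv.Perm (Fin 6)) :
    logJ D y σ = (detB (Pi.single (σ 1) 1) fun a k => D a (y k) / y k).det ∨
      logJ D y σ = -(detB (Pi.single (σ 1) 1) fun a k => D a (y k) / y k).det := by
  have e1 : logJ D y σ = (Matrix.of fun a b : Fin 4 =>
      D a (y (σ b.succ.succ)) / y (σ b.succ.succ) - D a (y (σ 0)) / y (σ 0)).det := by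
    rw [logJ, div_eq_iff (Finset.prod_ne_zero_iff.2 fun b _ => div_ne_zero (hy _) (hy _)),
      mul_comm, ← Matrix.det_mul_row, jac]
    refine congrArg Matrix.det ?_
    ext a b
    have h1 := hy (σ 0)
    have h2 := hy (σ b.succ.succ)
    simp only [Matrix.of_apply, Derivation.leibniz_div, smul_eq_mul]
    field_simp
  have e2 : (detB (Pi.single (σ 1) 1) fun a k => D a (y k) / y k).submatrix id σ =
      detB (Pi.single 1 1) fun a k => D a (y (σ k)) / y (σ k) := by
    ext i j
    fin_cases i <;> simp [detB, Pi.single_apply]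
  have e3 := Matrix.det_permute' σ (detB (Pi.single (σ 1) 1) fun a k => D a (y k) / y k)
  rw [e2, det_border, ← e1] at e3
  rcases Int.units_eq_one_or (Equiv.Perm.sign σ) with h | h <;> rw [h] at e3 <;> push_cast at e3
  · exact Or.inr (by linear_combination -e3)
  · exact Or.inl (by linear_combination -e3)

theorem pluecker (D : Fin 4 → Derivation ℂ K K) {y : Fin 6 → K} (hy : ∀ k, y k ≠ 0)
    (h0 : ∑ k, y k = 0) (σ ρ : Equiv.Perm (Fin 6)) :
    logJ D y σ * y (ρ 1) = logJ D y ρ * y (σ 1) ∨
      logJ D y σ * y (ρ 1) = -(logJ D y ρ * y (σ 1)) := by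
  have h := det_cof (fun a k => D a (y k) / y k) (fun e => hy 0 (congrFun e 0)) h0 (fun a => by
    rw [Finset.sum_congr rfl fun k _ => div_mul_cancel₀ _ (hy k), ← map_sum, h0, map_zero])
    (σ 1) (ρ 1)
  rcases det_logJ D hy σ with h1 | h1 <;> rcases det_logJ D hy ρ with h2 | h2 <;> rw [h1, h2]
  · exact Or.inl h
  · exact Or.inr (by linear_combination h)
  · exact Or.inr (by linear_combination -h)
  · exact Or.inl (by linear_combination -h)

end Pool.Agent.Lib.MP_ce9660_ag
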