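import Pool.Agent.Lib.MP_ce9660_ag.Defs

/-! General facts on valuations and derivations. -/

set_option autoImplicit false

noncomputable section

namespace Pool.Agent.Lib.MP_ce9660_ag

variable {K : Type} [Field K]

theorem exists_unif (v : Valuation K (WithZero (Multiplicative ℤ))) :
    (∀ a, a ≠ 0 → v a = 1) ∨
      ∃ p : K, p ≠ 0 ∧ v p < 1 ∧ ∀ a, a ≠ 0 → ∃ n : ℤ, v a = v p ^ n := by
  have h0 : ∀ {a : K}, a ≠ 0 → v a ≠ 0 := fun h => (Valuation.ne_zero_iff v).2 h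
  obtain ⟨g, hg⟩ := Int.subgroup_cyclic
    { carrier := {m | ∃ a : K, a ≠ 0 ∧ v a = WithZero.exp m}
      add_mem' := by
        rintro _ _ ⟨a, a1, a2⟩ ⟨b, b1, b2⟩
        exact ⟨a * b, mul_ne_zero a1 b1, by rw [map_mul, a2, b2, WithZero.exp_add]⟩
      zero_mem' := ⟨1, one_ne_zero, by rw [map_one, WithZero.exp_zero]⟩
      neg_mem' := by
        rintro _ ⟨a, a1, a2⟩
        exact ⟨a⁻¹, inv_ne_zero a1, by rw [map_inv₀, a2, WithZero.exp_neg]⟩ }
  have h1 : ∀ m : ℤ, (∃ a : K, a ≠ 0 ∧ v a = WithZero.exp m) ↔ ∃ k : ℤ, k • g = m := fun m =>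
    (SetLike.ext_iff.1 hg m).trans AddSubgroup.mem_closure_singleton
  have h2 : ∀ a, a ≠ 0 → ∃ k : ℤ, v a = WithZero.exp (k • g) := fun a ha => by
    obtain ⟨k, hk⟩ := (h1 _).1 ⟨a, ha, (WithZero.exp_log (h0 ha)).symm⟩
    exact ⟨k, by rw [hk, WithZero.exp_log (h0 ha)]⟩
  by_cases c : g = 0
  · refine .inl fun a ha => ?_
    obtain ⟨k, hk⟩ := h2 a ha
    rw [hk, c, smul_zero, WithZero.exp_zero]
  obtain ⟨p, p1, p2⟩ := (h1 (-|g|)).2
    ⟨-g.sign, by rw [smul_eq_mul, neg_mul, Int.sign_mul_self_eq_abs]⟩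
  refine .inr ⟨p, p1, ?_, fun a ha => ?_⟩
  · rw [p2, ← WithZero.exp_zero, WithZero.exp_lt_exp]
    exact neg_lt_zero.2 (abs_pos.2 c)
  · obtain ⟨k, hk⟩ := h2 a ha
    refine ⟨-(k * g.sign), ?_⟩
    rw [hk, p2, ← WithZero.exp_zsmul, smul_eq_mul, smul_eq_mul, neg_mul_neg, mul_assoc,
      Int.sign_mul_abs]

/-- In a vanishing sum the largest absolute value occurs twice. -/
theorem exists_two_max (v : Valuation K (WithZero (Multiplicative ℤ))) {y : Fin 6 → K}
    (hy : ∀ k, y k ≠ 0) (h0 : ∑ k, y k = 0) :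
    ∃ σ : Equiv.Perm (Fin 6), v (y (σ 1)) = v (y (σ 0)) ∧ ∀ k, v (y k) ≤ v (y (σ 0)) := by
  obtain ⟨p, -, hp⟩ := Finset.exists_max_image Finset.univ (fun k => v (y k)) Finset.univ_nonempty
  obtain ⟨q, hq, e⟩ : ∃ q, q ≠ p ∧ v (y q) = v (y p) := by
    by_contra c
    have h1 := v.map_sum_lt (s := Finset.univ.erase p) (f := y)
      ((Valuation.ne_zero_iff v).2 (hy p)) fun k hk =>
        lt_of_le_of_ne (hp k (Finset.mem_univ k)) fun e => c ⟨k, (Finset.mem_erase.1 hk).1, e⟩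
    rw [← Finset.add_sum_erase _ _ (Finset.mem_univ p), add_comm, add_eq_zero_iff_eq_neg] at h0
    rw [h0, Valuation.map_neg] at h1
    exact h1.false
  have h2 : ∀ p q : Fin 6, q ≠ p → ∃ σ : Equiv.Perm (Fin 6), σ 0 = p ∧ σ 1 = q := fun p q h =>
    ⟨Equiv.swap 0 p * Equiv.swap 1 (Equiv.swap 0 p q), by revert p q; decide, by simp⟩
  obtain ⟨σ, s0, s1⟩ := h2 p q hq
  exact ⟨σ, by rw [s0, s1, e], fun k => s0 ▸ hp k (Finset.mem_univ k)⟩

variable [Algebra ℂ K] {n : ℕ}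

theorem Gen_mul (D : Fin n → Derivation ℂ K K) (v : Valuation K (WithZero (Multiplicative ℤ)))
    {m : ℕ} {a b : K} (ha : a ∈ Reg D 1 v) (hb : b ∈ Reg D m v) : a * b ∈ Reg D (m + 1) v := by
  induction ha using Submodule.span_induction with
  | mem a ha =>
    obtain ⟨f, f1, rfl⟩ := ha
    induction hb using Submodule.span_induction with
    | mem b hb =>
      obtain ⟨g, g1, rfl⟩ := hb
      refine Submodule.subset_span ⟨Fin.cons (f 0) g, fun i => ?_, ?_⟩
      · exact Fin.cases (f1 0) g1 i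
      · simp [Fin.prod_univ_succ]
    | zero => simp
    | add b c _ _ h h' => exact mul_add _ b c ▸ add_mem h h'
    | smul r b _ h => exact mul_smul_comm r _ b ▸ Submodule.smul_mem _ r h
  | zero => simp
  | add a c _ _ h h' => exact add_mul a c b ▸ add_mem h h'
  | smul r a _ h => exact smul_mul_assoc r a b ▸ Submodule.smul_mem _ r h

theorem reg_pow (D : Fin n → Derivation ℂ K K) (v : Valuation K (WithZero (Multiplicative ℤ)))
    {j o : K} (hj : j ∈ Reg D 1 v) (ho : v o ≤ 1) (m : ℕ) : o * j ^ m ∈ Reg D m v := by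
  have h : j ^ m ∈ Reg D m v := by
    induction m with
    | zero => exact Submodule.subset_span ⟨fun i => i.elim0, fun i => i.elim0, by simp⟩
    | succ m ih => exact pow_succ' j m ▸ Gen_mul D v hj ih
  exact Submodule.smul_mem _ (⟨o, ho⟩ : v.integer) h

end Pool.Agent.Lib.MP_ce9660_ag
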