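import Pool.Agent.Lib.MP_ce9660_ag.Defs

/-! General facts on derivations. -/

set_option autoImplicit false

noncomputable section

namespace Pool.Agent.Lib.MP_ce9660_ag

variable {K : Type} [Field K] [Algebra ℂ K] {n : ℕ}

open MvPolynomial in
theorem genD_aeval (D : Fin n → Derivation ℂ K K) (τ : Fin n → K)
    (hD : ∀ a b, D a (τ b) = if a = b then 1 else 0) (a : Fin n) (P : MvPolynomial (Fin n) ℂ) :
    D a (aeval τ P) = aeval τ (pderiv a P) := by
  induction P using MvPolynomial.induction_on with
  | C c => simp
  | add p q hp hq => simp only [map_add, hp, hq]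
  | mul_X p b hp =>
    simp only [map_mul, aeval_X, Derivation.leibniz, smul_eq_mul, map_add, hp, hD]
    by_cases h : a = b
    · subst h
      simp
    · simp [h, pderiv_X_of_ne (Ne.symm h)]

open MvPolynomial in
theorem genD_zero (D : Fin n → Derivation ℂ K K) (τ : Fin n → K)
    (hD : ∀ a b, D a (τ b) = if a = b then 1 else 0) (N : ℕ) :
    ∀ P : MvPolynomial (Fin n) ℂ, (∀ m : Fin n →₀ ℕ, N ≤ m.degree → coeff m P = 0) →
      aeval τ P = 0 → P = 0 := by
  induction N with
  | zero => exact fun P h _ => MvPolynomial.ext _ _ fun m => h m (Nat.zero_le _)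
  | succ N ih =>
    intro P h h0
    have h1 : ∀ a, pderiv a P = 0 := fun a => by
      refine ih _ (fun m hm => ?_) (by rw [← genD_aeval D τ hD, h0, map_zero])
      rw [coeff_pderiv, h _ (by rw [map_add, Finsupp.degree_single]; omega), zero_mul]
    have h2 : P = C (coeff 0 P) := by
      refine MvPolynomial.ext _ _ fun m => ?_
      rw [coeff_C]
      split_ifs with hm
      · rw [hm]
      · obtain ⟨a, ha⟩ := Finsupp.ne_iff.1 (Ne.symm hm)
        have h3 := coeff_pderiv (i := a) P (m - Finsupp.single a 1)
        rw [h1, coeff_zero, tsub_add_cancel_of_le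
          (Finsupp.single_le_iff.2 (Nat.one_le_iff_ne_zero.2 ha))] at h3
        exact (mul_eq_zero.1 h3.symm).resolve_right (Nat.cast_add_one_ne_zero _)
    rw [h2, aeval_C, map_eq_zero] at h0
    rw [h2, h0, map_zero]

theorem algInd_of_dual (D : Fin n → Derivation ℂ K K) (τ : Fin n → K)
    (hD : ∀ a b, D a (τ b) = if a = b then 1 else 0) : AlgebraicIndependent ℂ τ := by
  refine algebraicIndependent_iff.2 fun P hP => genD_zero D τ hD (P.totalDegree + 1) P
    (fun m hm => MvPolynomial.coeff_eq_zero_of_totalDegree_lt ?_) hP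
  exact hm

/-- A derivation that maps the generators of a subfield into the subfield restricts to it. -/
theorem exists_restrict (S : Set K) (δ : Derivation ℂ K K)
    (h : ∀ s ∈ S, δ s ∈ IntermediateField.adjoin ℂ S) :
    ∃ δ' : Derivation ℂ (IntermediateField.adjoin ℂ S) (IntermediateField.adjoin ℂ S),
      ∀ y, (δ' y : K) = δ y := by
  have key : ∀ y ∈ IntermediateField.adjoin ℂ S, δ y ∈ IntermediateField.adjoin ℂ S := by
    intro y hy
    induction hy using IntermediateField.adjoin_induction with
    | mem x hx => exact h x hx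
    | algebraMap x => rw [δ.map_algebraMap]; exact zero_mem _
    | add x y _ _ a b => rw [map_add]; exact add_mem a b
    | inv x hx a =>
      rw [δ.leibniz_inv, smul_eq_mul]
      exact mul_mem (neg_mem (pow_mem (inv_mem hx) 2)) a
    | mul x y hx hy a b =>
      rw [δ.leibniz, smul_eq_mul, smul_eq_mul]
      exact add_mem (mul_mem hx b) (mul_mem hy a)
  refine ⟨Derivation.mk'
    { toFun := fun y => ⟨δ y, key y y.2⟩
      map_add' := fun a b => Subtype.ext (map_add δ a.1 b.1)
      map_smul' := fun c a => Subtype.ext (δ.map_smul c a.1) } fun a b =>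
    Subtype.ext (δ.leibniz a.1 b.1), fun _ => rfl⟩

theorem der_eq_zero (S : Set K) (δ : Derivation ℂ K K) (h : ∀ s ∈ S, δ s = 0) :
    ∀ y ∈ IntermediateField.adjoin ℂ S, δ y = 0 := by
  intro y hy
  induction hy using IntermediateField.adjoin_induction with
  | mem x hx => exact h x hx
  | algebraMap x => exact δ.map_algebraMap x
  | add x y _ _ a b => rw [map_add, a, b, add_zero]
  | inv x _ a => rw [δ.leibniz_inv, a, smul_zero]
  | mul x y _ _ a b => rw [δ.leibniz, a, b, smul_zero, smul_zero, add_zero]

end Pool.Agent.Lib.MP_ce9660_ag
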