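import Pool.Agent.Lib.MP_ce9660_ag.Ded
import Pool.Agent.Lib.MP_ce9660_ag.Cone
import Pool.Agent.Lib.MP_ce9660_ag.Det

/-! The Jacobians of integral elements have a bounded pole. -/

set_option autoImplicit false

noncomputable section

namespace Pool.Agent.Lib.MP_ce9660_ag

theorem JacB_loc {p : R} {hp : Prime p} {v : Valuation L (WithZero (Multiplicative ℤ))}
    (h : Over hp v) {c : L0} (hc : c ∈ locAt L0 hp) : v (algebraMap L0 L c) ≤ 1 :=
  h.1 _ ⟨hc, zero_mem (locAt L0 hp)⟩

theorem JacB_z {p : R} {hp : Prime p} {v : Valuation L (WithZero (Multiplicative ℤ))}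
    (h : Over hp v) : v z ≤ 1 :=
  h.1 _ ⟨zero_mem (locAt L0 hp), one_mem (locAt L0 hp)⟩

theorem over_poly {p : R} {hp : Prime p} {v : Valuation L (WithZero (Multiplicative ℤ))}
    (h : Over hp v) (r : R) : v (algebraMap R L r) ≤ 1 ∧ (¬ p ∣ r → v (algebraMap R L r) = 1) := by
  have h1 : v (algebraMap R L r) ≤ 1 := by
    rw [IsScalarTower.algebraMap_apply R L0 L]
    exact JacB_loc h (Subalgebra.algebraMap_mem _ r)
  refine ⟨h1, fun hr => le_antisymm h1 ?_⟩
  have h0 : algebraMap R L0 r ≠ 0 := fun e =>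
    hr (IsFractionRing.to_map_eq_zero_iff.1 e ▸ dvd_zero p)
  have h2 := JacB_loc h (c := (algebraMap R L0 r)⁻¹)
    ⟨r, 1, hr, by rw [inv_mul_cancel₀ h0, map_one]⟩
  have h3 := mul_le_mul_right h2 (v (algebraMap R L r))
  rwa [mul_one, ← map_mul, IsScalarTower.algebraMap_apply R L0 L, ← map_mul, mul_inv_cancel₀ h0,
    map_one, map_one, ← IsScalarTower.algebraMap_apply R L0 L] at h3

theorem JacB_cancel {v : Valuation L (WithZero (Multiplicative ℤ))} {s y : L} (hs : v s = 1)
    (h : s * y ∈ v.integer) : y ∈ v.integer := by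
  rwa [Valuation.mem_integer_iff, map_mul, hs, one_mul] at h

theorem JacB_dloc {p : R} {hp : Prime p} {v : Valuation L (WithZero (Multiplicative ℤ))}
    (h : Over hp v) {c : L0} (hc : c ∈ locAt L0 hp) (i : Fin 5) :
    dd i (algebraMap L0 L c) ∈ v.integer := by
  have h1 : algebraMap L0 L c ∈ v.integer := JacB_loc h hc
  obtain ⟨s, r, hs, e⟩ := hc
  have h2 := congrArg (fun t => dd i (algebraMap L0 L t)) e
  simp only [map_mul, ← IsScalarTower.algebraMap_apply R L0 L, Derivation.leibniz, dd_poly,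
    smul_eq_mul] at h2
  refine JacB_cancel ((over_poly h s).2 hs) ?_
  rw [← eq_sub_iff_add_eq'] at h2
  rw [h2]
  exact sub_mem (over_poly h _).1 (mul_mem h1 (over_poly h _).1)

theorem JacB_ins {p : R} {hp : Prime p} {v : Valuation L (WithZero (Multiplicative ℤ))}
    (h : Over hp v) {y : L} (hy : InS hp y) (i : Fin 5) :
    dd i y - dd i z * algebraMap L0 L y.im ∈ v.integer := by
  have h1 := congrArg (dd i) (L_eq y)
  rw [map_add, Derivation.leibniz, smul_eq_mul, smul_eq_mul] at h1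
  have h2 : dd i y - dd i z * algebraMap L0 L y.im =
      dd i (algebraMap L0 L y.re) + z * dd i (algebraMap L0 L y.im) := by
    rw [h1]
    ring
  rw [h2]
  exact add_mem (JacB_dloc h hy.1 i) (mul_mem (JacB_z h) (JacB_dloc h hy.2 i))

theorem over_der {p : R} {hp : Prime p} {v : Valuation L (WithZero (Multiplicative ℤ))}
    (h : Over hp v) {f : L} (hf : v f ≤ 1) :
    ∃ β : L, v β ≤ 1 ∧ ∀ i, v (dd i f - dd i z * β) ≤ 1 := by
  obtain ⟨b, s, hb, hs, h1, e⟩ := h.2 f hf
  have h0 : s ≠ 0 := fun e => by simp [e] at h1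
  obtain ⟨β, hβ⟩ : ∃ β, s * β = algebraMap L0 L b.im - f * algebraMap L0 L s.im :=
    ⟨_, mul_div_cancel₀ _ h0⟩
  refine ⟨β, JacB_cancel h1 ?_, fun i => JacB_cancel h1 ?_⟩
  · rw [hβ]
    exact sub_mem (JacB_loc h hb.2) (mul_mem hf (JacB_loc h hs.2))
  · have h2 := congrArg (dd i) e
    rw [Derivation.leibniz, smul_eq_mul, smul_eq_mul] at h2
    have h3 : s * (dd i f - dd i z * β) = (dd i b - dd i z * algebraMap L0 L b.im) -
        f * (dd i s - dd i z * algebraMap L0 L s.im) := by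
      linear_combination h2 - dd i z * hβ
    rw [h3]
    exact sub_mem (JacB_ins h hb i) (mul_mem hf (JacB_ins h hs i))

theorem JacB_det {S : Subring L} {n : ℕ} {N : Matrix (Fin n) (Fin n) L} (h : ∀ a b, N a b ∈ S) :
    N.det ∈ S := by
  rw [Matrix.det_apply']
  exact sum_mem fun σ _ => mul_mem (intCast_mem S _) (prod_mem fun a _ => h _ _)

theorem over_jac {p : R} {hp : Prime p} {v : Valuation L (WithZero (Multiplicative ℤ))}
    (h : Over hp v) (e : Fin 4 → Fin 5) {f : Fin 4 → L} (hf : ∀ b, v (f b) ≤ 1) :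
    v (z * jac (fun a => dd (e a)) f) ≤ 1 := by
  choose β h1 h2 using fun b => over_der h (hf b)
  have h3 : v 2 = 1 := by
    have := (over_poly h (algebraMap ℂ R 2)).2 fun d => hp.not_isUnit
      (isUnit_of_dvd_unit d ((IsUnit.mk0 (2 : ℂ) two_ne_zero).map _))
    rwa [map_ofNat, map_ofNat] at this
  have h4 : ∀ i, z * dd i z ∈ v.integer := fun i => JacB_cancel h3 (by
    rw [← mul_assoc, dd_z]
    exact neg_mem (over_poly h _).1)
  have h5 := det_rank_one (Matrix.of fun a b => dd (e a) (f b) - dd (e a) z * β b)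
    (fun a => dd (e a) z) β
  simp only [Matrix.of_apply, sub_add_cancel] at h5
  rw [jac, h5, mul_add, Finset.mul_sum]
  refine (add_mem (mul_mem (JacB_z h) (JacB_det fun a b => h2 b (e a))) (sum_mem fun b _ => ?_) :
    _ ∈ v.integer)
  rw [mul_left_comm, ← Matrix.det_updateCol_smul]
  refine mul_mem (h1 b) (JacB_det fun a c => ?_)
  rw [Matrix.updateCol_apply]
  split_ifs
  · exact h4 (e a)
  · exact h2 c (e a)

end Pool.Agent.Lib.MP_ce9660_ag
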