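import Pool.Agent.Lib.MP_ce9660_ag.Sub
import Pool.Agent.Lib.MP_ce9660_ag.JacB

/-! Jacobians on the field of degree zero and on the cone. -/

set_option autoImplicit false

noncomputable section

namespace Pool.Agent.Lib.MP_ce9660_ag

theorem jacRel_det {K : Type} [CommRing K] (A B : Matrix (Fin 4) (Fin 4) K)
    (k α β γ δ c1 c2 c3 : K)
    (h0 : ∀ b, k * A 0 b = α * B 0 b + β * B 1 b + γ * B 2 b + δ * B 3 b)
    (h1 : ∀ b, A 1 b = c1 * B 1 b) (h2 : ∀ b, A 2 b = c2 * B 2 b)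
    (h3 : ∀ b, A 3 b = c3 * B 3 b) : k * A.det = α * c1 * c2 * c3 * B.det := by
  have e : Matrix.diagonal ![k, 1, 1, 1] * A =
      !![α, β, γ, δ; 0, c1, 0, 0; 0, 0, c2, 0; 0, 0, 0, c3] * B := by
    ext a b
    rw [Matrix.diagonal_mul]
    fin_cases a <;> simp [Matrix.mul_apply, Fin.sum_univ_four, h0, h1, h2, h3]
  have d : (!![α, β, γ, δ; 0, c1, 0, 0; 0, 0, c2, 0; 0, 0, 0, c3] :
      Matrix (Fin 4) (Fin 4) K).det = α * c1 * c2 * c3 := by
    rw [Matrix.det_of_isUpperTriangular]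
    · simp [Fin.prod_univ_four]
    · intro i j hij
      fin_cases i <;> fin_cases j <;> simp at hij ⊢
  have := congrArg Matrix.det e
  rw [Matrix.det_mul, Matrix.det_mul, d, Matrix.det_diagonal] at this
  simpa [Fin.prod_univ_four] using this

theorem jacRel_E {y : L} (h : EL y = 0) : 9 * x 0 * dd 0 y + 15 * x 1 * dd 1 y +
    19 * x 2 * dd 2 y + 40 * x 3 * dd 3 y + 56 * x 4 * dd 4 y = 0 := by
  rw [EL_apply, Fin.sum_univ_five] at h
  simpa [wt] using h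

theorem jacRel_DL (y : L) : DL 0 y = t ^ 9 * dd 0 y + 2 * x 2 * t ^ 9 / x 0 * dd 2 y ∧
    DL 1 y = t ^ 15 * dd 1 y ∧ DL 2 y = t ^ 40 * dd 3 y ∧ DL 3 y = t ^ 56 * dd 4 y :=
  ⟨rfl, rfl, rfl, rfl⟩

theorem jac_zero {f : Fin 4 → L} (hf : ∀ b, EL (f b) = 0) :
    19 * jac DL f = t ^ 120 * jac (fun a => dd (![0, 1, 3, 4] a)) f := by
  have h0 := x_ne 0
  refine (jacRel_det (Matrix.of fun a b => DL a (f b))
    (Matrix.of fun a b => dd (![0, 1, 3, 4] a) (f b)) 19 (t ^ 9) (-(2 * t ^ 9 / x 0) * (15 * x 1))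
    (-(2 * t ^ 9 / x 0) * (40 * x 3)) (-(2 * t ^ 9 / x 0) * (56 * x 4)) (t ^ 15) (t ^ 40) (t ^ 56)
    (fun b => ?_) (fun b => (jacRel_DL (f b)).2.1) (fun b => (jacRel_DL (f b)).2.2.1)
    (fun b => (jacRel_DL (f b)).2.2.2)).trans (congrArg (· * _) (by ring))
  change 19 * DL 0 (f b) = _ * dd 0 (f b) + _ * dd 1 (f b) + _ * dd 3 (f b) + _ * dd 4 (f b)
  rw [(jacRel_DL (f b)).1]
  have e : x 0 * (x 0)⁻¹ = 1 := mul_inv_cancel₀ h0
  linear_combination (2 * t ^ 9 * (x 0)⁻¹) * jacRel_E (hf b) - (18 * t ^ 9 * dd 0 (f b)) * e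

theorem jac_two {f : Fin 4 → L} (hf : ∀ b, EL (f b) = 0) :
    -9 * x 0 * jac DL f = t ^ 120 * x 2 * jac (fun a => dd (![2, 1, 3, 4] a)) f := by
  have h0 := x_ne 0
  refine (jacRel_det (Matrix.of fun a b => DL a (f b))
    (Matrix.of fun a b => dd (![2, 1, 3, 4] a) (f b)) (-9 * x 0) (t ^ 9 * x 2) (t ^ 9 * (15 * x 1))
    (t ^ 9 * (40 * x 3)) (t ^ 9 * (56 * x 4)) (t ^ 15) (t ^ 40) (t ^ 56)
    (fun b => ?_) (fun b => (jacRel_DL (f b)).2.1) (fun b => (jacRel_DL (f b)).2.2.1)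
    (fun b => (jacRel_DL (f b)).2.2.2)).trans (congrArg (· * _) (by ring))
  change -9 * x 0 * DL 0 (f b) =
    _ * dd 2 (f b) + _ * dd 1 (f b) + _ * dd 3 (f b) + _ * dd 4 (f b)
  rw [(jacRel_DL (f b)).1]
  have e : x 0 * (x 0)⁻¹ = 1 := mul_inv_cancel₀ h0
  linear_combination (-t ^ 9) * jacRel_E (hf b) - (18 * x 2 * t ^ 9 * dd 2 (f b)) * e

/-- The normalising function of degree one. -/
def uu : L := z / (x 2 * t ^ 120)

theorem jacRel_den : x 2 * t ^ 120 ≠ 0 := mul_ne_zero (x_ne 2) (pow_ne_zero _ t_ne)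

theorem jacRel_uu : uu * (x 2 * t ^ 120) = z := div_mul_cancel₀ _ jacRel_den

theorem uu_ne : uu ≠ 0 := by
  exact div_ne_zero z_ne jacRel_den

theorem EL_uu : EL uu = uu := by
  have h := congrArg EL jacRel_uu
  have h2 : EL (x 2) = 19 * x 2 := by simpa [wt] using EL_x 2
  rw [Derivation.leibniz, Derivation.leibniz, Derivation.leibniz_pow, EL_t, h2, EL_z] at h
  simp only [smul_eq_mul, nsmul_eq_mul, Nat.cast_ofNat, Nat.add_one_sub_one] at h
  refine mul_right_cancel₀ jacRel_den ?_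
  linear_combination h - 140 * jacRel_uu

theorem jacRel_unit {p : R} (hp : Prime p) {c : ℂ} (hc : c ≠ 0) {r : R} (h : ¬ p ∣ r) :
    ¬ p ∣ MvPolynomial.C c * r := fun d => (hp.dvd_or_dvd d).elim
  (fun d => hp.not_isUnit (isUnit_of_dvd_unit d ((IsUnit.mk0 c hc).map MvPolynomial.C))) h

theorem over_jac_DL {p : R} {hp : Prime p} {v : Valuation L (WithZero (Multiplicative ℤ))}
    (h : Over hp v) {f : Fin 4 → L} (hf : ∀ b, v (f b) ≤ 1) (hE : ∀ b, EL (f b) = 0) :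
    v (jac DL f * uu) ≤ 1 := by
  have key : ∀ (r : R) (e : Fin 4 → Fin 5), ¬ p ∣ r →
      jac DL f * uu * algebraMap R L r = z * jac (fun a => dd (e a)) f →
      v (jac DL f * uu) ≤ 1 := by
    intro r e hr he
    have := over_jac h e hf
    rwa [← he, map_mul, (over_poly h r).2 hr, mul_one] at this
  by_cases h2 : p ∣ MvPolynomial.X 2
  · have h0 : ¬ p ∣ MvPolynomial.X 0 := fun h0 => by
      have a := (hp.irreducible.associated_of_dvd MvPolynomial.X_prime.irreducible h0).symm.dvd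
      exact absurd (MvPolynomial.X_dvd_X.1 (a.trans h2)) (by decide)
    refine key _ ![2, 1, 3, 4] (jacRel_unit hp (c := -9) (by norm_num) h0) ?_
    rw [map_neg, map_ofNat, map_mul, map_neg, map_ofNat]
    change jac DL f * uu * (-9 * x 0) = _
    linear_combination uu * jac_two hE + jac (fun a => dd (![2, 1, 3, 4] a)) f * jacRel_uu
  · refine key _ ![0, 1, 3, 4] (jacRel_unit hp (c := 19) (by norm_num) h2) ?_
    rw [map_ofNat, map_mul, map_ofNat]
    change jac DL f * uu * (19 * x 2) = _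
    linear_combination uu * x 2 * jac_zero hE + jac (fun a => dd (![0, 1, 3, 4] a)) f * jacRel_uu

end Pool.Agent.Lib.MP_ce9660_ag
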