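import Mathlib

/-! The lattice points of a simplicial cone. -/

set_option autoImplicit false

noncomputable section

namespace Pool.Agent.Lib.MP_ce9660_ag

theorem lat_mid (p0 p1 p2 p3 S : ℤ) (hS : p0 + p1 + p2 + p3 + (S + 4) / 5 + (S + 1) / 2 ≤ S)
    (h0 : S ≤ 29 * p0 + p2) (h1 : S ≤ 2 * p0 + p1 + 13 * p2) (h2 : S ≤ 16 * p1 + p3)
    (h3 : S ≤ 7 * p3) (hl : 0 < S) (hu : S < 278) : False := by
  have a2 : 0 ≤ p1 := by omega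
  have a3 : p1 ≤ 15 := by omega
  interval_cases S <;> first | omega | (interval_cases p1 <;> omega)

theorem lattice (p0 p1 p2 p3 p4 p5 S : ℤ) (hS : S = p0 + p1 + p2 + p3 + p4 + p5)
    (h0 : S ≤ 29 * p0 + p2) (h1 : S ≤ 2 * p0 + p1 + 13 * p2) (h2 : S ≤ 16 * p1 + p3)
    (h3 : S ≤ 7 * p3) (h4 : S ≤ 5 * p4) (h5 : S ≤ 2 * p5) :
    (p0 = 0 ∧ p1 = 0 ∧ p2 = 0 ∧ p3 = 0 ∧ p4 = 0 ∧ p5 = 0) ∨
      (S < 29 * p0 + p2 ∧ S < 2 * p0 + p1 + 13 * p2 ∧ S < 16 * p1 + p3 ∧ S < 7 * p3 ∧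
        S < 5 * p4) ∨
      (9 ≤ p0 ∧ 15 ≤ p1 ∧ 19 ≤ p2 ∧ 40 ≤ p3 ∧ 56 ≤ p4 ∧ 140 ≤ p5) := by
  rcases le_or_gt S 0 with a | a
  · have b : S = 0 := by omega
    exact Or.inl (by omega)
  rcases lt_trichotomy S 278 with b | b | b
  · exact (lat_mid p0 p1 p2 p3 S (by omega) h0 h1 h2 h3 a b).elim
  · have c0 : p0 = 9 := by omega
    have c1 : p1 = 15 := by omega
    exact Or.inr (Or.inl (by omega))
  · exact Or.inr (Or.inr ⟨by omega, by omega, by omega, by omega, by omega, by omega⟩)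

end Pool.Agent.Lib.MP_ce9660_ag
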