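import Pool.Agent.Lib.MP_ce9660_ag.Det

/-! The logarithmic Jacobian of the six terms of the equation. -/

set_option autoImplicit false

noncomputable section

namespace Pool.Agent.Lib.MP_ce9660_ag

variable {K : Type} [Field K] [Algebra ℂ K]

/-- The six terms of the equation. -/
def terms (τ : Fin 4 → K) (ζ : K) : Fin 6 → K :=
  ![τ 0 ^ 31, τ 0 ^ 28 * τ 1, τ 1 ^ 16 * τ 2, τ 2 ^ 7, τ 3 ^ 5, ζ ^ 2]

/-- The order in which the square comes second. -/
def logJRho : Equiv.Perm (Fin 6) := ⟨![0, 5, 1, 2, 3, 4], ![0, 2, 3, 4, 5, 1], by decide, by decide⟩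

theorem logJ_rho (D : Fin 4 → Derivation ℂ K K) {τ : Fin 4 → K} (ζ : K) (hτ : ∀ b, τ b ≠ 0)
    (hD : ∀ a b, D a (τ b) = if a = b then 1 else 0) :
    logJ D (terms τ ζ) logJRho * (τ 0 * τ 1 * τ 2 * τ 3) = -750 := by
  have h0 := hτ 0
  have h1 := hτ 1
  have h2 := hτ 2
  have h3 := hτ 3
  have e : (Matrix.of fun a b : Fin 4 =>
      D a (terms τ ζ (logJRho b.succ.succ) / terms τ ζ (logJRho 0))) = Matrix.of fun a b =>
      (terms τ ζ (logJRho b.succ.succ) / terms τ ζ (logJRho 0)) * (Matrix.of fun a b =>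
      (τ a)⁻¹ * !![-3, -31, -31, -31; 1, 16, 0, 0; 0, 1, 7, 0; 0, 0, 0, (5 : K)] a b) a b := by
    ext a b
    fin_cases a <;> fin_cases b <;>
      simp [terms, logJRho, Derivation.leibniz_div, Derivation.leibniz_pow, hD] <;>
      field_simp <;> ring
  have e2 : (!![-3, -31, -31, -31; 1, 16, 0, 0; 0, 1, 7, 0; 0, 0, 0, (5 : K)]).det = -750 := by
    simp [Matrix.det_succ_row_zero, Fin.sum_univ_succ, Fin.succAbove]
    norm_num
  have e3 : ∏ b : Fin 4, terms τ ζ (logJRho b.succ.succ) / terms τ ζ (logJRho 0) ≠ 0 :=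
    Finset.prod_ne_zero_iff.2 fun b _ => by
      fin_cases b <;> simp [terms, logJRho, hτ]
  rw [logJ, jac, e, Matrix.det_mul_row, Matrix.det_mul_column, e2, mul_div_cancel_left₀ _ e3,
    Fin.prod_univ_four]
  field_simp

theorem logJ_terms (D : Fin 4 → Derivation ℂ K K) {τ : Fin 4 → K} {ζ : K} (hτ : ∀ b, τ b ≠ 0)
    (hζ : ζ ≠ 0) (hD : ∀ a b, D a (τ b) = if a = b then 1 else 0)
    (h0 : ∑ k, terms τ ζ k = 0) (σ : Equiv.Perm (Fin 6)) :
    logJ D (terms τ ζ) σ * (τ 0 * τ 1 * τ 2 * τ 3 * ζ ^ 2) = 750 * terms τ ζ (σ 1) ∨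
      logJ D (terms τ ζ) σ * (τ 0 * τ 1 * τ 2 * τ 3 * ζ ^ 2) = -(750 * terms τ ζ (σ 1)) := by
  have hy : ∀ k, terms τ ζ k ≠ 0 := fun k => by
    fin_cases k <;> simp [terms, hτ, hζ]
  have h1 := logJ_rho D ζ hτ hD
  have h2 := pluecker D hy h0 σ logJRho
  rw [show terms τ ζ (logJRho 1) = ζ ^ 2 from rfl] at h2
  rcases h2 with h | h
  · right
    linear_combination (τ 0 * τ 1 * τ 2 * τ 3) * h + terms τ ζ (σ 1) * h1
  · left
    linear_combination (τ 0 * τ 1 * τ 2 * τ 3) * h - terms τ ζ (σ 1) * h1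

end Pool.Agent.Lib.MP_ce9660_ag
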