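import Pool.Agent.Lib.MP_ce9660_ag.Det

/-! A logarithmic form has a pole of order at most one. -/

set_option autoImplicit false

noncomputable section

namespace Pool.Agent.Lib.MP_ce9660_ag

variable {K : Type} [Field K] [Algebra ℂ K] {n : ℕ}

theorem logPole_smul {D : Fin n → Derivation ℂ K K}
    {v : Valuation K (WithZero (Multiplicative ℤ))} {o x : K} (ho : v o ≤ 1)
    (hx : x ∈ Reg D 1 v) : o * x ∈ Reg D 1 v :=
  (Reg D 1 v).smul_mem (⟨o, ho⟩ : v.integer) hx

theorem logPole_gen (D : Fin n → Derivation ℂ K K)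
    (v : Valuation K (WithZero (Multiplicative ℤ))) {f : Fin n → K} (hf : ∀ b, v (f b) ≤ 1) :
    jac D f ∈ Reg D 1 v :=
  Submodule.subset_span ⟨fun _ => f, fun _ j => hf j, by simp⟩

theorem logPole_det (D : Fin n → Derivation ℂ K K) (f c : Fin n → K) :
    (Matrix.of fun i b => c b * D i (f b)).det = (∏ b, c b) * jac D f :=
  Matrix.det_mul_row c (Matrix.of fun i b => D i (f b))

theorem logPole_mem (D : Fin n → Derivation ℂ K K)
    (v : Valuation K (WithZero (Multiplicative ℤ))) {f c : Fin n → K} (hf : ∀ b, v (f b) ≤ 1)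
    (hc : ∀ b, v (c b) ≤ 1) : (Matrix.of fun i b => c b * D i (f b)).det ∈ Reg D 1 v := by
  rw [logPole_det]
  refine logPole_smul ?_ (logPole_gen D v hf)
  rw [map_prod]
  exact Finset.prod_le_one' fun b _ => hc b

theorem logPole_quot (D : Fin n → Derivation ℂ K K) (a : Fin n → K) :
    jac D a / ∏ b, a b = (Matrix.of fun i b => (a b)⁻¹ * D i (a b)).det := by
  rw [logPole_det, Finset.prod_inv_distrib, div_eq_inv_mul]

theorem log_unit (D : Fin n → Derivation ℂ K K) (v : Valuation K (WithZero (Multiplicative ℤ)))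
    {a : Fin n → K} (ha : ∀ b, v (a b) = 1) : jac D a / ∏ b, a b ∈ Reg D 1 v := by
  rw [logPole_quot]
  exact logPole_mem D v (fun b => (ha b).le) fun b => by rw [map_inv₀, ha b, inv_one]

theorem log_pole (D : Fin n → Derivation ℂ K K) (v : Valuation K (WithZero (Multiplicative ℤ)))
    {p : K} (hp : p ≠ 0) (hp1 : v p ≤ 1) {a : Fin n → K} (ha0 : ∀ b, a b ≠ 0)
    (ha : ∀ b, ∃ k : ℤ, v (a b) = v p ^ k) : p * (jac D a / ∏ b, a b) ∈ Reg D 1 v := by
  choose k hk using ha
  have hvp : v p ≠ 0 := (Valuation.ne_zero_iff v).2 hp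
  obtain ⟨e, he, he0, hae⟩ : ∃ e : Fin n → K, (∀ b, v (e b) = 1) ∧ (∀ b, e b ≠ 0) ∧
      ∀ b, a b = p ^ k b * e b := by
    refine ⟨fun b => a b / p ^ k b, fun b => ?_, fun b => div_ne_zero (ha0 b) (zpow_ne_zero _ hp),
      fun b => (mul_div_cancel₀ _ (zpow_ne_zero _ hp)).symm⟩
    rw [map_div₀, map_zpow₀, hk b, div_self (zpow_ne_zero _ hvp)]
  have hi : ∀ b, v (e b)⁻¹ ≤ 1 := fun b => by rw [map_inv₀, he b, inv_one]
  have h1 : (Matrix.of fun i b => (a b)⁻¹ * D i (a b)) = Matrix.of fun i b =>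
      (Matrix.of fun i b => (e b)⁻¹ * D i (e b)) i b + p⁻¹ * D i p * (k b : K) := by
    ext i b
    have h2 := he0 b
    have h3 : p ^ k b ≠ 0 := zpow_ne_zero _ hp
    simp only [Matrix.of_apply, hae b, Derivation.leibniz, Derivation.leibniz_zpow, smul_eq_mul,
      zsmul_eq_mul, zpow_sub_one₀ hp]
    field_simp
  rw [logPole_quot, h1, det_rank_one _ (fun i => p⁻¹ * D i p) fun b => (k b : K), mul_add,
    Finset.mul_sum]
  refine add_mem (logPole_smul hp1 (logPole_mem D v (fun b => (he b).le) hi))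
    (Submodule.sum_mem _ fun b _ => ?_)
  rw [mul_left_comm]
  refine logPole_smul (intCast_mem v.integer (k b)) ?_
  have h4 : ((Matrix.of fun i b => (e b)⁻¹ * D i (e b)).updateCol b
      (p • fun i => p⁻¹ * D i p)) = Matrix.of fun i j =>
        Function.update (fun j => (e j)⁻¹) b 1 j * D i (Function.update e b p j) := by
    ext i j
    by_cases h : j = b
    · subst h
      simp [hp]
    · simp [h]
  rw [← Matrix.det_updateCol_smul, h4]
  refine logPole_mem D v (fun j => ?_) fun j => ?_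
  · by_cases h : j = b
    · subst h
      simpa using hp1
    · simpa [h] using (he j).le
  · by_cases h : j = b
    · subst h
      simp
    · rw [Function.update_of_ne h]
      exact hi j

end Pool.Agent.Lib.MP_ce9660_ag
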