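import Pool.Agent.Lib.MP_ce9660_ag.Gen
import Pool.Agent.Lib.MP_ce9660_ag.Lat
import Pool.Agent.Lib.MP_ce9660_ag.LogPole
import Pool.Agent.Lib.MP_ce9660_ag.LogJ

/-! The field is of general type. -/

set_option autoImplicit false

noncomputable section

namespace Pool.Agent.Lib.MP_ce9660_ag

variable {K : Type} [Field K] [Algebra ℂ K]

omit [Algebra ℂ K] in
theorem Lower_ne {τ : Fin 4 → K} {ζ : K} (hτ : ∀ b, τ b ≠ 0) (hζ : ζ ≠ 0) (k : Fin 6) :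
    terms τ ζ k ≠ 0 := by
  have h0 := hτ 0
  have h1 := hτ 1
  have h2 := hτ 2
  have h3 := hτ 3
  fin_cases k <;> simp [terms, h0, h1, h2, h3, hζ]

theorem Lower_750 (v : Valuation K (WithZero (Multiplicative ℤ)))
    (hv : ∀ c : ℂ, v (algebraMap ℂ K c) ≤ 1) : v 750 = 1 := by
  have h1 := hv 750
  have h2 := hv 750⁻¹
  have e : algebraMap ℂ K 750 = 750 := map_ofNat _ 750
  rw [map_inv₀, e, map_inv₀] at h2
  rw [e] at h1
  have h0 : (750 : K) ≠ 0 := by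
    rw [← e]
    exact (map_ne_zero _).2 (by norm_num)
  exact le_antisymm h1 ((inv_le_one₀ (zero_lt_iff.2 (v.ne_zero_iff.2 h0))).1 h2)

theorem Lower_pow (D : Fin 4 → Derivation ℂ K K) {τ : Fin 4 → K} {ζ : K} (hτ : ∀ b, τ b ≠ 0)
    (hζ : ζ ≠ 0) (hD : ∀ a b, D a (τ b) = if a = b then 1 else 0)
    (h0 : ∑ k, terms τ ζ k = 0) (σ : Equiv.Perm (Fin 6)) :
    (τ 0 ^ 2 / ζ) ^ 2660 = (τ 0 ^ 3 * τ 1 * τ 2 * τ 3 * ζ / (750 * terms τ ζ (σ 1))) ^ 2660 *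
      logJ D (terms τ ζ) σ ^ 2660 := by
  have hq := Lower_ne hτ hζ (σ 1)
  have h7 : (750 : K) ≠ 0 := by
    rw [← (map_ofNat (algebraMap ℂ K) 750)]
    exact (map_ne_zero _).2 (by norm_num)
  have hev : Even 2660 := by decide
  rw [← mul_pow]
  rcases logJ_terms D hτ hζ hD h0 σ with h | h
  · refine congrArg (· ^ 2660) ?_
    field_simp
    linear_combination -τ 0 ^ 2 * h
  · rw [← hev.neg_pow]
    refine congrArg (· ^ 2660) ?_
    field_simp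
    linear_combination -τ 0 ^ 2 * h

theorem Lower_unit (D : Fin 4 → Derivation ℂ K K) {τ : Fin 4 → K} {ζ : K} (hτ : ∀ b, τ b ≠ 0)
    (hζ : ζ ≠ 0) (hD : ∀ a b, D a (τ b) = if a = b then 1 else 0)
    (h0 : ∑ k, terms τ ζ k = 0) {s : K} (hs : s = 1 ∨ (∃ b, s = τ b) ∨ s = ζ)
    (v : Valuation K (WithZero (Multiplicative ℤ))) (hv : ∀ c : ℂ, v (algebraMap ℂ K c) ≤ 1)
    (h1 : ∀ b, v (τ b) = 1) (h2 : v ζ = 1) :
    s * (τ 0 ^ 280 * (τ 0 ^ 2 / ζ) ^ 2660) ∈ Reg D 2660 v := by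
  have hy : ∀ k, v (terms τ ζ k) = 1 := fun k => by
    fin_cases k <;> simp [terms, h1, h2]
  have hs1 : v s = 1 := by
    rcases hs with rfl | ⟨b, rfl⟩ | rfl
    · exact v.map_one
    · exact h1 b
    · exact h2
  have hJ : logJ D (terms τ ζ) 1 ∈ Reg D 1 v :=
    log_unit D v fun b => by rw [map_div₀, hy, hy, div_one]
  rw [Lower_pow D hτ hζ hD h0 1, ← mul_assoc, ← mul_assoc]
  refine reg_pow D v hJ (le_of_eq ?_) 2660
  simp only [map_mul, map_pow, map_div₀, hs1, h1, h2, hy, Lower_750 v hv, one_pow, mul_one, div_one]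

theorem mem_pluri (D : Fin 4 → Derivation ℂ K K) {τ : Fin 4 → K} {ζ : K} (hτ : ∀ b, τ b ≠ 0)
    (hζ : ζ ≠ 0) (hD : ∀ a b, D a (τ b) = if a = b then 1 else 0)
    (h0 : ∑ k, terms τ ζ k = 0) {s : K} (hs : s = 1 ∨ (∃ b, s = τ b) ∨ s = ζ) :
    s * (τ 0 ^ 280 * (τ 0 ^ 2 / ζ) ^ 2660) ∈ Pluri D 2660 := by
  intro v hv
  rcases exists_unif v with h | ⟨p, hp, hp1, h⟩
  · exact Lower_unit D hτ hζ hD h0 hs v hv (fun b => h _ (hτ b)) (h _ hζ)
  have hy := Lower_ne hτ hζ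
  obtain ⟨σ, e1, hmax⟩ := exists_two_max v hy h0
  obtain ⟨na, ha⟩ := h _ (hτ 0)
  obtain ⟨nb, hb⟩ := h _ (hτ 1)
  obtain ⟨nc, hc⟩ := h _ (hτ 2)
  obtain ⟨nd, hd⟩ := h _ (hτ 3)
  obtain ⟨nz, hz⟩ := h _ hζ
  have hg0 : v p ≠ 0 := v.ne_zero_iff.2 hp
  have hg : 0 < v p := zero_lt_iff.2 hg0
  obtain ⟨e, he⟩ : ∃ e : Fin 6 → ℤ,
      e = ![31 * na, 28 * na + nb, 16 * nb + nc, 7 * nc, 5 * nd, 2 * nz] := ⟨_, rfl⟩
  have hnat : ∀ (k : ℤ) (j : ℕ), (v p ^ k) ^ j = v p ^ ((j : ℤ) * k) := fun k j => by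
    rw [← zpow_natCast, ← zpow_mul, mul_comm]
  have hye : ∀ k, v (terms τ ζ k) = v p ^ e k := fun k => by
    rw [he]
    fin_cases k <;>
      simp [terms, ha, hb, hc, hd, hz, hnat, zpow_add₀ hg0]
  obtain ⟨μ, hμ⟩ : ∃ μ, μ = e (σ 0) := ⟨_, rfl⟩
  have hle : ∀ k, μ ≤ e k := fun k => by
    have := hmax k
    rw [hye, hye, zpow_le_zpow_iff_right_of_lt_one₀ hg hp1] at this
    rw [hμ]
    exact this
  have hμ1 : e (σ 1) = μ := by
    rw [hye, hye] at e1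
    rw [hμ]
    exact zpow_right_injective₀ hg hp1.ne e1
  have k0 : μ ≤ 31 * na := by simpa [he] using hle 0
  have k1 : μ ≤ 28 * na + nb := by simpa [he] using hle 1
  have k2 : μ ≤ 16 * nb + nc := by simpa [he] using hle 2
  have k3 : μ ≤ 7 * nc := by simpa [he] using hle 3
  have k4 : μ ≤ 5 * nd := by simpa [he] using hle 4
  have k5 : μ ≤ 2 * nz := by simpa [he] using hle 5
  obtain ⟨r, hr⟩ : ∃ r, r = 3 * na + nb + nc + nd + nz - μ := ⟨_, rfl⟩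
  rcases lattice (na + 9 * r) (nb + 15 * r) (2 * na + 19 * r) (nc + 40 * r) (nd + 56 * r)
    (nz + 140 * r) (μ + 280 * r) (by omega) (by omega) (by omega) (by omega) (by omega) (by omega)
    (by omega) with hl | hl | hl
  · have a0 : na = 0 := by omega
    have a1 : nb = 0 := by omega
    have a2 : nc = 0 := by omega
    have a3 : nd = 0 := by omega
    have a4 : nz = 0 := by omega
    rw [a0, zpow_zero] at ha
    rw [a1, zpow_zero] at hb
    rw [a2, zpow_zero] at hc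
    rw [a3, zpow_zero] at hd
    rw [a4, zpow_zero] at hz
    refine Lower_unit D hτ hζ hD h0 hs v hv (fun b => ?_) hz
    fin_cases b
    exacts [ha, hb, hc, hd]
  · exfalso
    have hlt : ∀ k, e k = μ → k = 5 := fun k hk => by
      rw [he] at hk
      fin_cases k <;> simp at hk ⊢ <;> omega
    have := σ.injective ((hlt _ hμ.symm).trans (hlt _ hμ1).symm)
    exact absurd this (by decide)
  · obtain ⟨ns, hns, hs2⟩ : ∃ ns : ℤ, v s = v p ^ ns ∧ 0 ≤ ns + 280 * na + 2660 * (r - 1) := by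
      rcases hs with rfl | ⟨b, rfl⟩ | rfl
      · exact ⟨0, by rw [zpow_zero, v.map_one], by omega⟩
      · fin_cases b
        · exact ⟨na, ha, by omega⟩
        · exact ⟨nb, hb, by omega⟩
        · exact ⟨nc, hc, by omega⟩
        · exact ⟨nd, hd, by omega⟩
      · exact ⟨nz, hz, by omega⟩
    have hJ : p * logJ D (terms τ ζ) σ ∈ Reg D 1 v :=
      log_pole D v hp hp1.le (fun b => div_ne_zero (hy _) (hy _))
        fun b => h _ (div_ne_zero (hy _) (hy _))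
    obtain ⟨W, hW⟩ : ∃ W, W = τ 0 ^ 3 * τ 1 * τ 2 * τ 3 * ζ / (750 * terms τ ζ (σ 1)) := ⟨_, rfl⟩
    have hvW : v (W / p) = v p ^ (r - 1) := by
      rw [hW, hr]
      simp only [map_mul, map_pow, map_div₀, ha, hb, hc, hd, hz, hye, hμ1, Lower_750 v hv, one_mul,
        hnat, zpow_sub₀ hg0, zpow_add₀ hg0, zpow_one, Nat.cast_ofNat]
    have hE : s * (τ 0 ^ 280 * (W ^ 2660 * logJ D (terms τ ζ) σ ^ 2660)) =
        s * τ 0 ^ 280 * (W / p) ^ 2660 * (p * logJ D (terms τ ζ) σ) ^ 2660 := by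
      rw [mul_assoc (s * τ 0 ^ 280), ← mul_pow (W / p), ← mul_assoc (W / p), div_mul_cancel₀ W hp,
        mul_pow, mul_assoc s]
    rw [Lower_pow D hτ hζ hD h0 σ, ← hW, hE]
    refine reg_pow D v hJ ?_ 2660
    rw [map_mul, map_mul, map_pow, map_pow, hvW, hns, ha, hnat, hnat, ← zpow_add₀ hg0,
      ← zpow_add₀ hg0]
    exact zpow_le_one₀ hg hp1.le (by omega)

theorem birat_big (D : Fin 4 → Derivation ℂ K K) {τ : Fin 4 → K} {ζ : K} (hτ : ∀ b, τ b ≠ 0)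
    (hζ : ζ ≠ 0) (hD : ∀ a b, D a (τ b) = if a = b then 1 else 0)
    (h0 : ∑ k, terms τ ζ k = 0)
    (hgen : IntermediateField.adjoin ℂ (insert ζ (Set.range τ)) = ⊤) : Birat D 2660 := by
  refine top_le_iff.1 (hgen.ge.trans (IntermediateField.adjoin.mono ℂ _ _ fun s hs => ?_))
  have hs' : s = 1 ∨ (∃ b, s = τ b) ∨ s = ζ := by
    rcases hs with rfl | ⟨b, rfl⟩
    · exact Or.inr (Or.inr rfl)
    · exact Or.inr (Or.inl ⟨b, rfl⟩)
  refine ⟨_, mem_pluri D hτ hζ hD h0 hs', _, mem_pluri D hτ hζ hD h0 (Or.inl rfl), ?_⟩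
  rw [one_mul, mul_div_cancel_right₀]
  exact mul_ne_zero (pow_ne_zero _ (hτ 0))
    (pow_ne_zero _ (div_ne_zero (pow_ne_zero _ (hτ 0)) hζ))

end Pool.Agent.Lib.MP_ce9660_ag
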