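import Pool.Agent.Lib.MP_ce9660_ag.Upper
import Pool.Agent.Lib.MP_ce9660_ag.Lower

/-! The fourfold. -/

set_option autoImplicit false

noncomputable section

namespace Pool.Agent.Lib.MP_ce9660_ag

/-- The generators as elements of the field of degree zero. -/
def tauK (b : Fin 4) : KK :=
  ⟨tau b, IntermediateField.subset_adjoin ℂ _ (Set.mem_insert_of_mem _ ⟨b, rfl⟩)⟩

/-- The last generator as an element of the field of degree zero. -/
def zetaK : KK := ⟨zeta, IntermediateField.subset_adjoin ℂ _ (Set.mem_insert _ _)⟩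

theorem main_gen : IntermediateField.adjoin ℂ (insert zetaK (Set.range tauK)) = ⊤ := by
  apply IntermediateField.map_injective KK.val
  rw [IntermediateField.adjoin_map, ← AlgHom.fieldRange_eq_map, IntermediateField.fieldRange_val,
    Set.image_insert_eq, ← Set.range_comp]
  rfl

theorem main_sum : ∑ k, terms tauK zetaK k = 0 := by
  apply Subtype.ext
  have h := terms_sum
  simp only [terms, Fin.sum_univ_six, Matrix.cons_val] at h ⊢
  exact h

theorem main : ∃ (K : Type) (_ : Field K) (_ : Algebra ℂ K) (τ : Fin 4 → K) (ζ : K)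
    (D : Fin 4 → Derivation ℂ K K), AlgebraicIndependent ℂ τ ∧
    ζ ^ 2 + τ 0 ^ 31 + τ 0 ^ 28 * τ 1 + τ 1 ^ 16 * τ 2 + τ 2 ^ 7 + τ 3 ^ 5 = 0 ∧
    IntermediateField.adjoin ℂ (insert ζ (Set.range τ)) = ⊤ ∧
    (∀ a b, D a (τ b) = if a = b then 1 else 0) ∧ Birat D 2660 ∧ ¬ Birat D 190 := by
  obtain ⟨D, hD⟩ := exists_DK
  have hd : ∀ a b, D a (tauK b) = if a = b then 1 else 0 := fun a b => by
    apply Subtype.ext
    rw [hD]
    change DL a (tau b) = _
    rw [DL_tau]
    split_ifs <;> rfl
  have h1 : ∀ b, tauK b ≠ 0 := fun b h => tau_ne b (congrArg Subtype.val h)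
  have h2 : zetaK ≠ 0 := fun h => zeta_ne (congrArg Subtype.val h)
  refine ⟨KK, inferInstance, inferInstance, tauK, zetaK, D, algInd_of_dual D tauK hd, ?_, main_gen,
    hd, birat_big D h1 h2 hd main_sum main_gen, not_birat hD⟩
  have h := main_sum
  simp only [terms, Fin.sum_univ_six, Matrix.cons_val] at h
  linear_combination h

end Pool.Agent.Lib.MP_ce9660_ag
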