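import Mathlib

/-! The branch polynomial. -/

set_option autoImplicit false

noncomputable section

namespace Pool.Agent.Lib.MP_ce9660_ag

open MvPolynomial

/-- The polynomial ring of the cone. -/
abbrev R : Type := MvPolynomial (Fin 5) ℂ

/-- Its field of fractions. -/
abbrev L0 : Type := FractionRing R

/-- The branch polynomial. -/
def g : R := X 0 ^ 29 * X 2 + X 0 ^ 2 * X 1 * X 2 ^ 13 + X 1 ^ 16 * X 3 + X 3 ^ 7 + X 4 ^ 5

/-- The weights. -/
def wt : Fin 5 → ℕ := ![9, 15, 19, 40, 56]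

theorem poly_eval : eval (fun i : Fin 5 => if i = 3 then (1 : ℂ) else 0) g = 1 := by
  simp [g]

theorem poly_d4 : pderiv 4 g = C 5 * X 4 ^ 4 := by
  simp [g, Derivation.leibniz_pow, pderiv_X, map_ofNat]

theorem g_squarefree : Squarefree g := by
  have h0 : g ≠ 0 := fun h => by simpa [h] using poly_eval
  rw [squarefree_iff_irreducible_sq_not_dvd_of_ne_zero h0]
  rintro p hp ⟨u, hu⟩
  have h1 : p ∣ C 5 * X 4 ^ 4 := by
    rw [← poly_d4, hu]
    simp only [Derivation.leibniz, smul_eq_mul]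
    exact ⟨p * pderiv 4 u + 2 * u * pderiv 4 p, by ring⟩
  have h2 : p ∣ X 4 := hp.prime.dvd_of_dvd_pow
    ((IsUnit.dvd_mul_left ((isUnit_iff_ne_zero.2 (by norm_num : (5 : ℂ) ≠ 0)).map C)).1 h1)
  have h3 : (X 4 : R) ∣ g :=
    ((hp.associated_of_dvd X_prime.irreducible h2).symm.dvd).trans ⟨p * u, by rw [hu, mul_assoc]⟩
  have h4 := map_dvd (eval fun i : Fin 5 => if i = 3 then (1 : ℂ) else 0) h3
  rw [poly_eval] at h4
  simp at h4

theorem g_not_sq (r : L0) : r ^ 2 ≠ -algebraMap R L0 g + 0 * r := by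
  intro h
  rw [zero_mul, add_zero, ← map_neg] at h
  obtain ⟨s, rfl⟩ := IsIntegrallyClosed.exists_algebraMap_eq_of_isIntegral_pow (R := R)
    (x := r) two_pos (h ▸ isIntegral_algebraMap)
  rw [← map_pow] at h
  have h1 := IsFractionRing.injective R L0 h
  have h2 := g_squarefree s ⟨-1, by linear_combination h1⟩
  have h3 := (h2.pow 2).map (eval fun _ : Fin 5 => (0 : ℂ))
  rw [h1] at h3
  simp [g] at h3

theorem euler_g : ∑ i, (wt i : R) * (X i * pderiv i g) = 280 * g := by
  simp [Fin.sum_univ_five, wt, g, Derivation.leibniz_pow, pderiv_X]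
  ring

theorem poly_coeff (r : R) (i : Fin 5) (d : Fin 5 →₀ ℕ) :
    coeff d (X i * pderiv i r) = d i * coeff d r := by
  induction r using MvPolynomial.induction_on' with
  | monomial m a =>
    rw [X_mul_pderiv_monomial, coeff_smul, coeff_monomial]
    split_ifs with h
    · simp [h]
    · simp
  | add p q hp hq => rw [map_add, mul_add, coeff_add, coeff_add, hp, hq, mul_add]

theorem euler_fifty {r : R} (h : ∑ i, (wt i : R) * (X i * pderiv i r) = 50 * r) : r = 0 := by
  ext d
  have h1 := congrArg (coeff d) h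
  rw [coeff_sum] at h1
  simp only [← nsmul_eq_mul, coeff_smul, poly_coeff] at h1
  rw [show (50 : R) * r = (50 : ℕ) • r by simp, coeff_smul] at h1
  by_contra h0
  have h2 : ((9 * d 0 + 15 * d 1 + 19 * d 2 + 40 * d 3 + 56 * d 4 : ℕ) : ℂ) = (50 : ℕ) := by
    refine mul_right_cancel₀ h0 ?_
    simp [Fin.sum_univ_five, wt] at h1
    push_cast
    linear_combination h1
  have h3 := Nat.cast_injective h2
  have h4 : d 2 ≤ 2 := by omega
  have h5 : d 1 ≤ 3 := by omega
  have h6 : d 3 ≤ 1 := by omega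
  have h7 : d 4 = 0 := by omega
  interval_cases d 2 <;> interval_cases d 1 <;> interval_cases d 3 <;> omega

end Pool.Agent.Lib.MP_ce9660_ag
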