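import Pool.Agent.Lib.MP_ce9660_ag.SubA

/-! The derivations of the field of degree zero. -/

set_option autoImplicit false

noncomputable section

namespace Pool.Agent.Lib.MP_ce9660_ag

theorem sub_dd_t (i : Fin 5) : dd i t =
    (if i = 2 then 1 else 0) / x 0 ^ 2 - (if i = 0 then 1 else 0) * (2 * x 2 / x 0 ^ 3) := by
  have h0 := x_ne 0
  rw [t, Derivation.leibniz_div, Derivation.leibniz_pow, dd_x, dd_x]
  simp only [smul_eq_mul, nsmul_eq_mul]
  field_simp
  push_cast
  ring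

theorem DL_t (a : Fin 4) : DL a t = 0 := by
  have h0 := x_ne 0
  fin_cases a <;> simp [DL, sub_dd_t]
  field_simp
  ring

theorem sub_der_div (δ : Derivation ℂ L L) (c : L) (h : δ t = c * t) (y : L) (w : ℕ) :
    δ (y / t ^ w) = (δ y - w * c * y) / t ^ w := by
  have ht := t_ne
  have hp : δ (t ^ w) = w * c * t ^ w := by
    induction w with
    | zero => simp
    | succ k ih =>
      rw [pow_succ, Derivation.leibniz, ih, h]
      simp only [smul_eq_mul]
      push_cast
      ring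
  rw [Derivation.leibniz_div, hp]
  simp only [smul_eq_mul]
  field_simp

theorem sub_DL_div (a : Fin 4) (y : L) (w : ℕ) : DL a (y / t ^ w) = DL a y / t ^ w := by
  rw [sub_der_div (DL a) 0 (by rw [DL_t, zero_mul])]
  simp

theorem DL_tau (a b : Fin 4) : DL a (tau b) = if a = b then 1 else 0 := by
  have ht := t_ne
  have e : tau b = x (![0, 1, 3, 4] b) / t ^ (![9, 15, 40, 56] b) := by
    fin_cases b <;> rfl
  rw [e, sub_DL_div]
  fin_cases a <;> fin_cases b <;> simp [DL, dd_x, ht]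

theorem sub_tau_mem (b : Fin 4) : tau b ∈ KK :=
  IntermediateField.subset_adjoin _ _ (Set.mem_insert_of_mem _ ⟨b, rfl⟩)

theorem sub_zeta_mem : zeta ∈ KK :=
  IntermediateField.subset_adjoin _ _ (Set.mem_insert _ _)

theorem sub_DL_tau_mem (a b : Fin 4) : DL a (tau b) ∈ KK := by
  rw [DL_tau]
  split_ifs
  · exact one_mem _
  · exact zero_mem _

theorem sub_pow_mem (a b : Fin 4) (k : ℕ) : DL a (tau b ^ k) ∈ KK := by
  rw [Derivation.leibniz_pow, smul_eq_mul, nsmul_eq_mul]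
  exact mul_mem (natCast_mem _ _) (mul_mem (pow_mem (sub_tau_mem b) _) (sub_DL_tau_mem a b))

theorem DL_zeta (a : Fin 4) : DL a zeta ∈ KK := by
  have : CharZero L := Algebra.charZero_of_charZero ℂ L
  have hz := zeta_ne
  have h := congrArg (DL a) terms_sum
  have e : ∑ k, terms tau zeta k = tau 0 ^ 31 + tau 0 ^ 28 * tau 1 + tau 1 ^ 16 * tau 2 +
      tau 2 ^ 7 + tau 3 ^ 5 + zeta * zeta := by
    rw [Fin.sum_univ_six, ← sq]
    rfl
  rw [e] at h
  simp only [map_add, map_zero, Derivation.leibniz, smul_eq_mul] at h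
  have e2 : DL a zeta = -(DL a (tau 0 ^ 31) +
      (tau 0 ^ 28 * DL a (tau 1) + tau 1 * DL a (tau 0 ^ 28)) +
      (tau 1 ^ 16 * DL a (tau 2) + tau 2 * DL a (tau 1 ^ 16)) + DL a (tau 2 ^ 7) +
      DL a (tau 3 ^ 5)) / (zeta + zeta) := by
    have h2 : zeta + zeta ≠ 0 := by
      rw [← two_mul]
      exact mul_ne_zero two_ne_zero hz
    rw [eq_div_iff h2]
    linear_combination h
  rw [e2]
  refine div_mem (neg_mem (add_mem (add_mem (add_mem (add_mem (sub_pow_mem a 0 31) ?_) ?_)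
    (sub_pow_mem a 2 7)) (sub_pow_mem a 3 5))) (add_mem sub_zeta_mem sub_zeta_mem)
  · exact add_mem (mul_mem (pow_mem (sub_tau_mem 0) _) (sub_DL_tau_mem a 1))
      (mul_mem (sub_tau_mem 1) (sub_pow_mem a 0 28))
  · exact add_mem (mul_mem (pow_mem (sub_tau_mem 1) _) (sub_DL_tau_mem a 2))
      (mul_mem (sub_tau_mem 2) (sub_pow_mem a 1 16))

theorem sub_EL_div {y : L} (w : ℕ) (h : EL y = w * y) : EL (y / t ^ w) = 0 := by
  rw [sub_der_div EL 1 (by rw [EL_t, one_mul]), h, mul_one, sub_self, zero_div]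

theorem EL_KK : ∀ y ∈ KK, EL y = 0 := by
  refine der_eq_zero _ EL ?_
  rintro s (rfl | ⟨b, rfl⟩)
  · exact sub_EL_div 140 (by rw [EL_z]; norm_num)
  · fin_cases b
    · exact sub_EL_div 9 (EL_x 0)
    · exact sub_EL_div 15 (EL_x 1)
    · exact sub_EL_div 40 (EL_x 3)
    · exact sub_EL_div 56 (EL_x 4)

theorem exists_DK : ∃ D : Fin 4 → Derivation ℂ KK KK, ∀ a y, (D a y : L) = DL a y := by
  have h : ∀ a : Fin 4, ∃ δ' : Derivation ℂ KK KK, ∀ y, (δ' y : L) = DL a y := fun a => by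
    refine exists_restrict _ (DL a) ?_
    rintro s (rfl | ⟨b, rfl⟩)
    · exact DL_zeta a
    · exact sub_DL_tau_mem a b
  choose D hD using h
  exact ⟨D, hD⟩

end Pool.Agent.Lib.MP_ce9660_ag
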