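import Pool.Agent.Lib.MP_ce9660_ag.Cone
import Pool.Agent.Lib.MP_ce9660_ag.GenD
import Pool.Agent.Lib.MP_ce9660_ag.LogJ

/-! The field of functions of degree zero. -/

set_option autoImplicit false

noncomputable section

namespace Pool.Agent.Lib.MP_ce9660_ag

/-- A function of degree one. -/
def t : L := x 2 / x 0 ^ 2

/-- A transcendence basis of the field of degree zero. -/
def tau : Fin 4 → L := ![x 0 / t ^ 9, x 1 / t ^ 15, x 3 / t ^ 40, x 4 / t ^ 56]

/-- The last generator. -/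
def zeta : L := z / t ^ 140

/-- The dual derivations. -/
def DL : Fin 4 → Derivation ℂ L L :=
  ![t ^ 9 • dd 0 + (2 * x 2 * t ^ 9 / x 0) • dd 2, t ^ 15 • dd 1, t ^ 40 • dd 3, t ^ 56 • dd 4]

/-- The field of degree zero. -/
abbrev KK : IntermediateField ℂ L := IntermediateField.adjoin ℂ (insert zeta (Set.range tau))

theorem t_ne : t ≠ 0 := by
  exact div_ne_zero (x_ne 2) (pow_ne_zero _ (x_ne 0))

theorem tau_ne (b : Fin 4) : tau b ≠ 0 := by
  fin_cases b
  · exact div_ne_zero (x_ne 0) (pow_ne_zero _ t_ne)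
  · exact div_ne_zero (x_ne 1) (pow_ne_zero _ t_ne)
  · exact div_ne_zero (x_ne 3) (pow_ne_zero _ t_ne)
  · exact div_ne_zero (x_ne 4) (pow_ne_zero _ t_ne)

theorem zeta_ne : zeta ≠ 0 := by
  exact div_ne_zero z_ne (pow_ne_zero _ t_ne)

theorem suba_x2 : x 2 = x 0 ^ 2 * t := by
  have h0 := x_ne 0
  unfold t
  field_simp

theorem suba_z_sq : z ^ 2 =
    -(x 0 ^ 29 * x 2 + x 0 ^ 2 * x 1 * x 2 ^ 13 + x 1 ^ 16 * x 3 + x 3 ^ 7 + x 4 ^ 5) := by
  rw [z_sq]
  simp only [g, x, map_add, map_mul, map_pow]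

theorem suba_alg {F : Type} [Field F] {a b c d w s : F} (hs : s ≠ 0)
    (h : w ^ 2 = -(a ^ 29 * (a ^ 2 * s) + a ^ 2 * b * (a ^ 2 * s) ^ 13 + b ^ 16 * c + c ^ 7 +
      d ^ 5)) :
    (a / s ^ 9) ^ 31 + ((a / s ^ 9) ^ 28 * (b / s ^ 15) + ((b / s ^ 15) ^ 16 * (c / s ^ 40) +
      ((c / s ^ 40) ^ 7 + ((d / s ^ 56) ^ 5 + (w / s ^ 140) ^ 2)))) = 0 := by
  have h1 : (w / s ^ 140) ^ 2 = w ^ 2 / s ^ 280 := by rw [div_pow, ← pow_mul]
  rw [h1, h]
  field_simp
  ring

theorem terms_sum : ∑ k, terms tau zeta k = 0 := by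
  have h := suba_z_sq
  rw [suba_x2] at h
  have h2 := suba_alg t_ne h
  simpa only [terms, tau, zeta, Fin.sum_univ_succ, Fin.sum_univ_zero, Matrix.cons_val_zero,
    Matrix.cons_val_succ, Matrix.cons_val_one, Matrix.cons_val, add_zero] using h2

theorem EL_t : EL t = t := by
  have h0 := x_ne 0
  have e0 : EL (x 0) = 9 * x 0 := by simpa [wt] using EL_x 0
  have e2 : EL (x 2) = 19 * x 2 := by simpa [wt] using EL_x 2
  have h := congrArg EL suba_x2
  rw [e2, Derivation.leibniz, Derivation.leibniz_pow, e0, suba_x2] at h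
  simp only [smul_eq_mul, nsmul_eq_mul] at h
  have h2 : x 0 ^ 2 * EL t = x 0 ^ 2 * t := by
    have h3 : ((2 : ℕ) : L) = 2 := by norm_num
    rw [h3] at h
    linear_combination -h
  exact mul_left_cancel₀ (pow_ne_zero 2 h0) h2

theorem suba_t_eq : ∃ c : L0, t = algebraMap L0 L c := by
  refine ⟨algebraMap R L0 (MvPolynomial.X 2) / algebraMap R L0 (MvPolynomial.X 0) ^ 2, ?_⟩
  rw [map_div₀, map_pow, ← IsScalarTower.algebraMap_apply, ← IsScalarTower.algebraMap_apply]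
  rfl

theorem zeta_im : zeta.im ≠ 0 := by
  obtain ⟨c, hc⟩ := suba_t_eq
  intro h
  have h1 : zeta * t ^ 140 = z := div_mul_cancel₀ _ (pow_ne_zero _ t_ne)
  have h2 : zeta = algebraMap L0 L zeta.re := by
    have := L_eq zeta
    rw [h, map_zero, zero_mul, add_zero] at this
    exact this
  rw [h2, hc, ← map_pow, ← map_mul] at h1
  have h3 := congrArg QuadraticAlgebra.im h1
  rw [QuadraticAlgebra.algebraMap_im] at h3
  simp [z] at h3

end Pool.Agent.Lib.MP_ce9660_ag
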