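import Pool.Agent.Lib.MP_ce9660_ag.JacRel

/-! The 190-canonical map is not birational. -/

set_option autoImplicit false

noncomputable section

namespace Pool.Agent.Lib.MP_ce9660_ag

theorem upper_jac {D : Fin 4 → Derivation ℂ KK KK} (hD : ∀ a y, (D a y : L) = DL a y)
    (f : Fin 4 → KK) : ((jac D f : KK) : L) = jac DL fun b => (f b : L) := by
  have h := RingHom.map_det (algebraMap KK L) (Matrix.of fun a b => D a (f b))
  have e : (algebraMap KK L).mapMatrix (Matrix.of fun a b => D a (f b)) =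
      Matrix.of fun a b => DL a (f b : L) := by
    ext1 a b
    exact hD a (f b)
  rw [e] at h
  exact h

theorem upper_const (c : ℂ) : algebraMap ℂ L c = algebraMap R L (MvPolynomial.C c) :=
  IsScalarTower.algebraMap_apply ℂ R L c

theorem upper_val {D : Fin 4 → Derivation ℂ KK KK} (hD : ∀ a y, (D a y : L) = DL a y) {m : ℕ}
    {h : KK} (hh : h ∈ Pluri D m) {p : R} {hp : Prime p}
    {v : Valuation L (WithZero (Multiplicative ℤ))} (hv : Over hp v) :
    v ((h : L) * uu ^ m) ≤ 1 := by
  have h1 := hh (v.comap (algebraMap KK L)) fun c => by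
    have e : algebraMap KK L (algebraMap ℂ KK c) = algebraMap R L (MvPolynomial.C c) := by
      rw [← IsScalarTower.algebraMap_apply, upper_const]
    rw [Valuation.comap_apply, e]
    exact (over_poly hv _).1
  unfold Reg at h1
  clear hh
  induction h1 using Submodule.span_induction with
  | mem y hy =>
    obtain ⟨f, hf, rfl⟩ := hy
    have e : ((∏ i, jac D (f i) : KK) : L) * uu ^ m =
        ∏ i : Fin m, (jac DL (fun b => (f i b : L)) * uu) := by
      rw [Finset.prod_mul_distrib, Finset.prod_const, Finset.card_univ, Fintype.card_fin]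
      congr 1
      exact (map_prod (algebraMap KK L) _ _).trans
        (Finset.prod_congr rfl fun i _ => upper_jac hD (f i))
    rw [e, map_prod]
    exact Finset.prod_le_one' fun i _ =>
      over_jac_DL hv (fun b => hf i b) fun b => EL_KK _ (f i b).2
  | zero => simp
  | add a b _ _ ha hb =>
    have e : ((a + b : KK) : L) * uu ^ m = (a : L) * uu ^ m + (b : L) * uu ^ m := by
      rw [← add_mul]; rfl
    rw [e]
    exact v.map_add_le ha hb
  | smul c a _ ha =>
    have e : ((c • a : KK) : L) * uu ^ m = ((c : KK) : L) * ((a : L) * uu ^ m) := by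
      rw [← mul_assoc]; rfl
    rw [e, map_mul]
    exact mul_le_one' c.2 ha

theorem pluri_poly {D : Fin 4 → Derivation ℂ KK KK} (hD : ∀ a y, (D a y : L) = DL a y) {m : ℕ}
    {h : KK} (hh : h ∈ Pluri D m) :
    ∃ r0 r1 : R, (h : L) * uu ^ m = algebraMap R L r0 + algebraMap R L r1 * z := by
  have hS : ∀ (p : R) (hp : Prime p), InS hp ((h : L) * uu ^ m) := fun p hp =>
    inS_of_over hp fun v hv => upper_val hD hh hv
  obtain ⟨r0, h0⟩ := mem_range_of_locAt L0 fun p hp => (hS p hp).1
  obtain ⟨r1, h1⟩ := mem_range_of_locAt L0 fun p hp => (hS p hp).2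
  refine ⟨r0, r1, ?_⟩
  rw [IsScalarTower.algebraMap_apply R L0 L r0, IsScalarTower.algebraMap_apply R L0 L r1, h0, h1]
  exact L_eq _

theorem upper_range {D : Fin 4 → Derivation ℂ KK KK} (hD : ∀ a y, (D a y : L) = DL a y)
    {h : KK} (hh : h ∈ Pluri D 190) : ∃ c : L0, (h : L) * uu ^ 190 = algebraMap L0 L c := by
  obtain ⟨r0, r1, e⟩ := pluri_poly hD hh
  have h1 : EL ((h : L) * uu ^ 190) = 190 * ((h : L) * uu ^ 190) := by
    rw [Derivation.leibniz, Derivation.leibniz_pow, EL_uu, EL_KK _ h.2]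
    simp only [smul_eq_mul, nsmul_eq_mul, mul_zero, add_zero]
    rw [show (190 : ℕ) - 1 = 189 from rfl, show (190 : ℕ) = 189 + 1 from rfl, pow_succ]
    push_cast
    ring
  rw [e] at h1
  refine ⟨algebraMap R L0 r0, ?_⟩
  rw [e, im_eq_zero h1, map_zero, zero_mul, add_zero, IsScalarTower.algebraMap_apply R L0 L]

theorem not_birat {D : Fin 4 → Derivation ℂ KK KK} (hD : ∀ a y, (D a y : L) = DL a y) :
    ¬ Birat D 190 := by
  intro hB
  let F : IntermediateField ℂ KK :=
    ((IsScalarTower.toAlgHom ℂ L0 L).fieldRange).comap KK.val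
  have hF : ∀ y : KK, y ∈ F ↔ ∃ c : L0, algebraMap L0 L c = (y : L) := fun y => Iff.rfl
  have hle : IntermediateField.adjoin ℂ
      {r : KK | ∃ h ∈ Pluri D 190, ∃ h' ∈ Pluri D 190, r = h / h'} ≤ F := by
    rw [IntermediateField.adjoin_le_iff]
    rintro _ ⟨h, hh, h', hh', rfl⟩
    obtain ⟨c, hc⟩ := upper_range hD hh
    obtain ⟨c', hc'⟩ := upper_range hD hh'
    refine (hF _).2 ⟨c / c', ?_⟩
    rw [map_div₀, ← hc, ← hc', mul_div_mul_right _ _ (pow_ne_zero _ uu_ne)]
    exact (map_div₀ (algebraMap KK L) h h').symm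
  unfold Birat at hB
  rw [hB] at hle
  have hz : zeta ∈ KK := IntermediateField.subset_adjoin _ _ (Set.mem_insert _ _)
  obtain ⟨c, hc⟩ := (hF ⟨zeta, hz⟩).1 (hle IntermediateField.mem_top)
  apply zeta_im
  have hc' : algebraMap L0 L c = zeta := hc
  rw [← hc']
  exact QuadraticAlgebra.algebraMap_im c

end Pool.Agent.Lib.MP_ce9660_ag
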