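import Pool.Agent.Lib.MP_ce9660_ag.Main
import Pool.Agent.Lib.MP_ce9660_ag.Cnt

/-! An upper bound for the plurigenera. -/

set_option autoImplicit false

noncomputable section

namespace Pool.Agent.Lib.MP_ce9660_ag

open MvPolynomial

theorem vol_supp {r : R} {e m : ℕ}
    (h : ∑ i, (wt i : R) * (X i * pderiv i r) + (e : R) * r = (m : R) * r) {d : Fin 5 →₀ ℕ}
    (hd : d ∈ r.support) : 9 * d 0 + 15 * d 1 + 19 * d 2 + 40 * d 3 + 56 * d 4 + e = m := by
  have h1 := congrArg (coeff d) h
  rw [coeff_add, coeff_sum] at h1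
  simp only [← nsmul_eq_mul, coeff_smul, poly_coeff] at h1
  have h0 := mem_support_iff.1 hd
  have h2 : ((9 * d 0 + 15 * d 1 + 19 * d 2 + 40 * d 3 + 56 * d 4 + e : ℕ) : ℂ) = (m : ℕ) := by
    refine mul_right_cancel₀ h0 ?_
    simp [Fin.sum_univ_five, wt] at h1
    push_cast
    linear_combination h1
  exact Nat.cast_injective h2

theorem vol_split {r0 r1 : R} {m : ℕ} (h : EL (algebraMap R L r0 + algebraMap R L r1 * z) =
    (m : L) * (algebraMap R L r0 + algebraMap R L r1 * z)) :
    ∑ i, (wt i : R) * (X i * pderiv i r0) + ((0 : ℕ) : R) * r0 = (m : R) * r0 ∧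
      ∑ i, (wt i : R) * (X i * pderiv i r1) + ((140 : ℕ) : R) * r1 = (m : R) * r1 := by
  rw [map_add, Derivation.leibniz, EL_z, cone_EL_poly, cone_EL_poly, smul_eq_mul,
    smul_eq_mul] at h
  generalize ∑ i, (wt i : R) * (X i * pderiv i r0) = s0 at h ⊢
  generalize ∑ i, (wt i : R) * (X i * pderiv i r1) = s1 at h ⊢
  have h1 : algebraMap R L (s1 + 140 * r1 - m * r1) * z = algebraMap R L (m * r0 - s0) := by
    simp only [map_sub, map_add, map_mul, map_ofNat, map_natCast]
    linear_combination h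
  have h2 := congrArg QuadraticAlgebra.im h1
  rw [IsScalarTower.algebraMap_apply R L0 L, IsScalarTower.algebraMap_apply R L0 L] at h2
  simp only [z, QuadraticAlgebra.im_mul, QuadraticAlgebra.algebraMap_re,
    QuadraticAlgebra.algebraMap_im, QuadraticAlgebra.omega_re, QuadraticAlgebra.omega_im,
    mul_one, mul_zero, add_zero] at h2
  have h3 : s1 + 140 * r1 - m * r1 = 0 := (IsFractionRing.to_map_eq_zero_iff (K := L0)).1 h2
  rw [h3, map_zero, zero_mul] at h1
  have h4 : (0 : R) = m * r0 - s0 := RL_inj ((map_zero _).trans h1)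
  push_cast
  exact ⟨by linear_combination h4, by linear_combination h3⟩

theorem vol_euler (h : KK) (m : ℕ) : EL ((h : L) * uu ^ m) = (m : L) * ((h : L) * uu ^ m) := by
  have hp : EL (uu ^ m) = m * uu ^ m := by
    induction m with
    | zero => simp
    | succ k ih =>
      rw [pow_succ, Derivation.leibniz, ih, EL_uu]
      simp only [smul_eq_mul]
      push_cast
      ring
  rw [Derivation.leibniz, hp, EL_KK _ h.2]
  simp only [smul_eq_mul]
  ring

theorem vol_span (r : R) (y : L) (A : Finset (Fin 5 →₀ ℕ)) (hA : r.support ⊆ A) (w : Set L)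
    (hw : ∀ d ∈ A, algebraMap R L (monomial d 1) * y ∈ w) :
    algebraMap R L r * y ∈ Submodule.span ℂ w := by
  rw [r.as_sum, map_sum, Finset.sum_mul]
  refine Submodule.sum_mem _ fun d hd => ?_
  have e : algebraMap R L (monomial d (coeff d r)) * y =
      coeff d r • (algebraMap R L (monomial d 1) * y) := by
    rw [Algebra.smul_def, upper_const, ← mul_assoc, ← map_mul, C_mul_monomial, mul_one]
  rw [e]
  exact Submodule.smul_mem _ _ (Submodule.subset_span (hw d (hA hd)))

theorem vol_bound {D : Fin 4 → Derivation ℂ KK KK} (hD : ∀ a y, (D a y : L) = DL a y) (m s : ℕ)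
    (h : Fin s → KK) (hh : ∀ i, h i ∈ Pluri D m) (hl : LinearIndependent ℂ h) :
    (s : ℝ) ≤ (m + 282) ^ 4 / (24 * 2872800) := by
  classical
  choose r0 r1 e using fun i => pluri_poly hD (hh i)
  have hs := fun i => vol_split ((e i) ▸ vol_euler (h i) m)
  let A0 : Finset (Fin 5 →₀ ℕ) := Finset.univ.biUnion fun i => (r0 i).support
  let A1 : Finset (Fin 5 →₀ ℕ) := Finset.univ.biUnion fun i => (r1 i).support
  have c0 : (A0.card : ℝ) ≤ (m + 282) ^ 4 / (24 * 5745600) := by
    refine cnt_mon le_rfl A0 fun d hd => ?_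
    obtain ⟨i, -, hi⟩ := Finset.mem_biUnion.1 hd
    exact vol_supp (hs i).1 hi
  have c1 : (A1.card : ℝ) ≤ (m + 282) ^ 4 / (24 * 5745600) := by
    refine cnt_mon (Nat.sub_le m 140) A1 fun d hd => ?_
    obtain ⟨i, -, hi⟩ := Finset.mem_biUnion.1 hd
    have := vol_supp (hs i).2 hi
    omega
  let W : Finset L := A0.image (fun d => algebraMap R L (monomial d 1) * 1) ∪
    A1.image fun d => algebraMap R L (monomial d 1) * z
  let φ : KK →ₗ[ℂ] L := (LinearMap.mulRight ℂ (uu ^ m)).comp KK.val.toLinearMap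
  have hφ : LinearMap.ker φ = ⊥ := by
    rw [LinearMap.ker_eq_bot']
    intro y hy
    have h1 : (y : L) * uu ^ m = 0 := hy
    exact Subtype.ext ((mul_eq_zero.1 h1).resolve_right (pow_ne_zero _ uu_ne))
  have h1 := linearIndependent_le_span_aux' (φ ∘ h) (hl.map' φ hφ) (W : Set L) (by
    rintro _ ⟨i, rfl⟩
    have e1 : (φ ∘ h) i = algebraMap R L (r0 i) * 1 + algebraMap R L (r1 i) * z := by
      rw [mul_one, ← e i]
      rfl
    rw [e1]
    refine Submodule.add_mem _ (vol_span _ _ A0 ?_ _ fun d hd => ?_)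
      (vol_span _ _ A1 ?_ _ fun d hd => ?_)
    · exact Finset.subset_biUnion_of_mem (fun i => (r0 i).support) (Finset.mem_univ i)
    · exact Finset.mem_coe.2 (Finset.mem_union_left _ (Finset.mem_image_of_mem _ hd))
    · exact Finset.subset_biUnion_of_mem (fun i => (r1 i).support) (Finset.mem_univ i)
    · exact Finset.mem_coe.2 (Finset.mem_union_right _ (Finset.mem_image_of_mem _ hd)))
  rw [Fintype.card_fin] at h1
  have h2 : Fintype.card (W : Set L) ≤ A0.card + A1.card := by
    rw [← Set.toFinset_card, Finset.toFinset_coe]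
    exact (Finset.card_union_le _ _).trans (add_le_add Finset.card_image_le Finset.card_image_le)
  have h3 : (s : ℝ) ≤ A0.card + A1.card := by exact_mod_cast h1.trans h2
  linarith

theorem vol_main : ∃ (K : Type) (_ : Field K) (_ : Algebra ℂ K) (τ : Fin 4 → K) (ζ : K)
    (D : Fin 4 → Derivation ℂ K K), AlgebraicIndependent ℂ τ ∧
    ζ ^ 2 + τ 0 ^ 31 + τ 0 ^ 28 * τ 1 + τ 1 ^ 16 * τ 2 + τ 2 ^ 7 + τ 3 ^ 5 = 0 ∧
    IntermediateField.adjoin ℂ (insert ζ (Set.range τ)) = ⊤ ∧
    (∀ a b, D a (τ b) = if a = b then 1 else 0) ∧ Birat D 2660 ∧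
    ∀ (m s : ℕ) (h : Fin s → K), (∀ i, h i ∈ Pluri D m) → LinearIndependent ℂ h →
      (s : ℝ) ≤ (m + 282) ^ 4 / (24 * 2872800) := by
  obtain ⟨D, hD⟩ := exists_DK
  have hd : ∀ a b, D a (tauK b) = if a = b then 1 else 0 := fun a b => by
    apply Subtype.ext
    rw [hD]
    change DL a (tau b) = _
    rw [DL_tau]
    split_ifs <;> rfl
  have h1 : ∀ b, tauK b ≠ 0 := fun b h => tau_ne b (congrArg Subtype.val h)
  have h2 : zetaK ≠ 0 := fun h => zeta_ne (congrArg Subtype.val h)
  refine ⟨KK, inferInstance, inferInstance, tauK, zetaK, D, algInd_of_dual D tauK hd, ?_, main_gen,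
    hd, birat_big D h1 h2 hd main_sum main_gen, vol_bound hD⟩
  have h := main_sum
  simp only [terms, Fin.sum_univ_six, Matrix.cons_val] at h
  linear_combination h

end Pool.Agent.Lib.MP_ce9660_ag
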